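import Pool.Agent.helper56.CT.Main
import Pool.Agent.helper27.CT.G5

/-!
# 2-factors as subgraphs
-/

namespace CT
open Finset

section
variable {V : Type}

/-- `F` is (the edge set of) a 2-factor of `G`: a spanning subgraph of `G` in which every vertex
has exactly two neighbours. -/
def TwoFactor (G F : SimpleGraph V) : Prop := F ≤ G ∧ ∀ v, Nat.card {w // F.Adj v w} = 2

/-- The number of 2-factors `F` of `G` with exactly `i` components such that the complement
`G \ F` has exactly `j` components. -/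
noncomputable def numDec (G : SimpleGraph V) (i j : ℕ) : ℕ :=
  Nat.card {F : SimpleGraph V // TwoFactor G F ∧ Nat.card F.ConnectedComponent = i ∧
    Nat.card (G \ F).ConnectedComponent = j}

end

theorem pow_mod32 (k : ℕ) (hk : 5 ≤ k) : (32 : ℤ) ∣ (-2) ^ k := by
  have h : (32 : ℤ) = -((-2) ^ 5) := by norm_num
  rw [h]
  exact (neg_dvd).2 (pow_dvd_pow _ hk)

theorem term32 (i j : ℕ) (hi : 1 ≤ i) (hj : 1 ≤ j) :
    (32 : ℤ) ∣ (-2) ^ (i + j) -
      (4 * (if i = 1 ∧ j = 1 then 1 else 0) -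
        8 * ((if i = 1 ∧ j = 2 then 1 else 0) + (if i = 2 ∧ j = 1 then 1 else 0)) +
        16 * ((if i = 1 ∧ j = 3 then 1 else 0) + (if i = 3 ∧ j = 1 then 1 else 0) +
          (if i = 2 ∧ j = 2 then 1 else 0))) := by
  rcases Nat.lt_or_ge (i + j) 5 with h | h
  · have h1 : i < 4 := by omega
    have h2 : j < 4 := by omega
    interval_cases i <;> interval_cases j <;> simp at h ⊢
  · have h1 := pow_mod32 (i + j) h
    have n1 : ¬ (i = 1 ∧ j = 1) := by omega
    have n2 : ¬ (i = 1 ∧ j = 2) := by omega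
    have n3 : ¬ (i = 2 ∧ j = 1) := by omega
    have n4 : ¬ (i = 1 ∧ j = 3) := by omega
    have n5 : ¬ (i = 3 ∧ j = 1) := by omega
    have n6 : ¬ (i = 2 ∧ j = 2) := by omega
    simp only [n1, n2, n3, n4, n5, n6, if_false]
    simpa using h1

theorem arith_inv {X : Type*} [DecidableEq X] (S : Finset X) (σ : X → X)
    (hσ : ∀ x, σ (σ x) = x) (hS : ∀ x ∈ S, σ x ∈ S) (hne : ∀ x ∈ S, σ x ≠ x) (a : X → ℕ)
    (ha : ∀ x ∈ S, 1 ≤ a x) :
    (32 : ℤ) ∣ (∑ x ∈ S, (-2 : ℤ) ^ (a x + a (σ x))) -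
      (4 * ((S.filter fun x => a x = 1 ∧ a (σ x) = 1).card : ℤ) -
        16 * ((S.filter fun x => a x = 1 ∧ a (σ x) = 2).card : ℤ)) := by
  have sym : ∀ i j : ℕ, (S.filter fun x => a x = i ∧ a (σ x) = j).card =
      (S.filter fun x => a x = j ∧ a (σ x) = i).card := by
    intro i j
    refine Finset.card_bij (fun x _ => σ x) ?_ ?_ ?_
    · intro x hx
      rw [mem_filter] at hx ⊢
      exact ⟨hS x hx.1, hx.2.2, by rw [hσ]; exact hx.2.1⟩
    · intro x _ y _ h
      rw [← hσ x, h, hσ]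
    · intro y hy
      rw [mem_filter] at hy
      refine ⟨σ y, ?_, hσ y⟩
      rw [mem_filter]
      exact ⟨hS y hy.1, hy.2.2, by rw [hσ]; exact hy.2.1⟩
  have ev : 2 ∣ (S.filter fun x => a x = 2 ∧ a (σ x) = 2).card := by
    have h1 : ∑ x ∈ (S.filter fun x => a x = 2 ∧ a (σ x) = 2), (1 : ZMod 2) = 0 := by
      refine Finset.sum_involution (fun x _ => σ x) ?_ ?_ ?_ ?_
      · intro x _; exact CharTwo.add_self_eq_zero 1
      · intro x hx _
        rw [mem_filter] at hx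
        exact hne x hx.1
      · intro x hx
        rw [mem_filter] at hx ⊢
        exact ⟨hS x hx.1, hx.2.2, by rw [hσ]; exact hx.2.1⟩
      · intro x _; exact hσ x
    rw [Finset.sum_const, nsmul_eq_mul, mul_one] at h1
    exact (ZMod.natCast_eq_zero_iff _ _).1 h1
  have h1 : (32 : ℤ) ∣ ∑ x ∈ S, ((-2 : ℤ) ^ (a x + a (σ x)) -
      (4 * (if a x = 1 ∧ a (σ x) = 1 then 1 else 0) -
        8 * ((if a x = 1 ∧ a (σ x) = 2 then 1 else 0) +
          (if a x = 2 ∧ a (σ x) = 1 then 1 else 0)) +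
        16 * ((if a x = 1 ∧ a (σ x) = 3 then 1 else 0) +
          (if a x = 3 ∧ a (σ x) = 1 then 1 else 0) +
          (if a x = 2 ∧ a (σ x) = 2 then 1 else 0)))) :=
    Finset.dvd_sum fun x hx => term32 _ _ (ha x hx) (ha _ (hS x hx))
  have cnt : ∀ i j : ℕ, ∑ x ∈ S, (if a x = i ∧ a (σ x) = j then (1 : ℤ) else 0) =
      ((S.filter fun x => a x = i ∧ a (σ x) = j).card : ℤ) := by
    intro i j
    rw [Finset.sum_boole]
  rw [Finset.sum_sub_distrib, Finset.sum_add_distrib, Finset.sum_sub_distrib,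
    ← Finset.mul_sum, ← Finset.mul_sum, ← Finset.mul_sum, Finset.sum_add_distrib,
    Finset.sum_add_distrib, Finset.sum_add_distrib, cnt, cnt, cnt, cnt, cnt, cnt,
    sym 2 1, sym 3 1] at h1
  obtain ⟨m, hm⟩ := ev
  rw [hm] at h1
  push_cast at h1
  omega

section
variable {V : Type} [Fintype V] [DecidableEq V]

/-- The subgraph of a set of edges. -/
def subg {G : SimpleGraph V} (F : Finset G.edgeSet) : SimpleGraph V :=
  SimpleGraph.fromEdgeSet ((fun a : G.edgeSet => (a : Sym2 V)) '' (F : Set G.edgeSet))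

omit [Fintype V] [DecidableEq V] in
theorem subg_adj {G : SimpleGraph V} (F : Finset G.edgeSet) (x y : V) :
    (subg F).Adj x y ↔ ∃ h : G.Adj x y, (⟨s(x, y), h⟩ : G.edgeSet) ∈ F := by
  unfold subg
  rw [SimpleGraph.fromEdgeSet_adj]
  constructor
  · rintro ⟨⟨⟨a, ha⟩, h1, h2⟩, -⟩
    simp only at h2
    subst h2
    exact ⟨ha, h1⟩
  · rintro ⟨h, h1⟩
    exact ⟨⟨_, h1, rfl⟩, h.ne⟩

omit [Fintype V] [DecidableEq V] in
theorem subg_le {G : SimpleGraph V} (F : Finset G.edgeSet) : subg F ≤ G := by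
  intro x y h
  exact ((subg_adj F x y).1 h).1

omit [Fintype V] [DecidableEq V] in
theorem subg_compl {G : SimpleGraph V} [Fintype G.edgeSet] [DecidableEq G.edgeSet]
    (F : Finset G.edgeSet) : subg Fᶜ = G \ subg F := by
  ext x y
  rw [SimpleGraph.sdiff_adj, subg_adj, subg_adj]
  simp only [mem_compl, not_exists]
  constructor
  · rintro ⟨h, h1⟩
    exact ⟨h, fun _ => h1⟩
  · rintro ⟨h, h1⟩
    exact ⟨h, h1 h⟩

omit [Fintype V] [DecidableEq V] in
theorem subg_inj {G : SimpleGraph V} {F F' : Finset G.edgeSet} (h : subg F = subg F') :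
    F = F' := by
  ext ⟨a, ha⟩
  induction a using Sym2.ind with
  | _ x y =>
    have h1 := subg_adj F x y
    have h2 := subg_adj F' x y
    rw [h] at h1
    constructor
    · intro h3
      obtain ⟨_, h4⟩ := h2.1 (h1.2 ⟨ha, h3⟩)
      exact h4
    · intro h3
      obtain ⟨_, h4⟩ := h1.1 (h2.2 ⟨ha, h3⟩)
      exact h4

omit [Fintype V] [DecidableEq V] in
open Classical in
theorem subg_surj {G : SimpleGraph V} [Fintype G.edgeSet] (H : SimpleGraph V) (hH : H ≤ G) :
    subg ((univ : Finset G.edgeSet).filter fun a => (a : Sym2 V) ∈ H.edgeSet) = H := by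
  ext x y
  rw [subg_adj]
  simp only [mem_filter, mem_univ, true_and, SimpleGraph.mem_edgeSet]
  exact ⟨fun ⟨_, h⟩ => h, fun h => ⟨hH h, h⟩⟩

open Classical in
theorem subg_deg {G : SimpleGraph V} (F : Finset G.edgeSet) (S : Finset (Sym2 V))
    (hS : ∀ x, x ∈ S ↔ ∃ a ∈ F, (a : Sym2 V) = x) (v : V) :
    (S.filter fun a => v ∈ a).card = Nat.card {w // (subg F).Adj v w} := by
  rw [Nat.card_eq_fintype_card, Fintype.card_subtype]
  symm
  refine Finset.card_bij (fun w _ => s(v, w)) ?_ ?_ ?_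
  · intro w hw
    rw [mem_filter, subg_adj] at hw
    obtain ⟨-, h, h1⟩ := hw
    rw [mem_filter, hS]
    exact ⟨⟨_, h1, rfl⟩, Sym2.mem_mk_left _ _⟩
  · intro w _ w' _ h
    exact Sym2.congr_right.1 h
  · intro a ha
    rw [mem_filter, hS] at ha
    obtain ⟨⟨b, hb, rfl⟩, h2⟩ := ha
    obtain ⟨w, hw⟩ := h2
    have h3 : G.Adj v w := by
      have h4 := b.2
      rw [hw] at h4
      exact h4
    refine ⟨w, ?_, hw.symm⟩
    rw [mem_filter, subg_adj]
    refine ⟨mem_univ _, h3, ?_⟩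
    have h5 : (⟨s(v, w), h3⟩ : G.edgeSet) = b := Subtype.ext hw.symm
    rw [h5]; exact hb

theorem compl_factor (G F : SimpleGraph V) (hG : FourRegular G) (hF : TwoFactor G F) :
    TwoFactor G (G \ F) := by
  classical
  refine ⟨sdiff_le, fun v => ?_⟩
  have h1 := hG v
  have h2 := hF.2 v
  rw [Nat.card_eq_fintype_card, Fintype.card_subtype] at h1 h2 ⊢
  have h3 : (univ.filter fun w => (G \ F).Adj v w) =
      (univ.filter fun w => G.Adj v w) \ (univ.filter fun w => F.Adj v w) := by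
    ext w
    simp [SimpleGraph.sdiff_adj]
  rw [h3, Finset.card_sdiff_of_subset, h1, h2]
  intro w hw
  rw [mem_filter] at hw ⊢
  exact ⟨hw.1, hF.1 hw.2⟩

theorem arith3 {X N1 N2 : ℕ} {z : ℤ} (h1 : (32 : ℤ) ∣ 4 * (X : ℤ) - z)
    (h2 : (32 : ℤ) ∣ z - (4 * (N1 : ℤ) - 16 * (N2 : ℤ))) (h3 : (16 : ℤ) ∣ z) :
    4 ∣ N1 ∧ ∃ k : ℕ, X = 4 * k ∧ (2 : ℤ) ∣ (((N1 / 4 + N2 : ℕ) : ℤ) - (k : ℤ)) := by
  have h4 : 4 ∣ N1 := by omega
  have h5 : 4 ∣ X := by omega
  obtain ⟨n, rfl⟩ := h4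
  obtain ⟨k, rfl⟩ := h5
  refine ⟨⟨n, rfl⟩, k, rfl, ?_⟩
  have h6 : 4 * n / 4 = n := by omega
  rw [h6]
  push_cast
  push_cast at h1 h2
  omega

theorem numDec_eq (G : SimpleGraph V) [Fintype G.edgeSet] [DecidableEq G.edgeSet]
    (S : Finset (Finset G.edgeSet))
    (hS : ∀ F : Finset G.edgeSet, F ∈ S ↔ ∀ v, Nat.card {w // (subg F).Adj v w} = 2) (i j : ℕ) :
    (S.filter fun F => cc F = i ∧ cc Fᶜ = j).card = numDec G i j := by
  classical
  have hfin : Fintype (SimpleGraph V) := Fintype.ofFinite _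
  unfold numDec
  rw [Nat.card_eq_fintype_card, Fintype.card_subtype]
  refine Finset.card_bij (fun F _ => subg F) ?_ ?_ ?_
  · intro F hF
    rw [mem_filter] at hF
    obtain ⟨h1, h2, h3⟩ := hF
    rw [mem_filter]
    refine ⟨mem_univ _, ⟨subg_le F, (hS F).1 h1⟩, h2, ?_⟩
    rw [← subg_compl]
    exact h3
  · intro F _ F' _ h
    exact subg_inj h
  · intro H hH
    rw [mem_filter] at hH
    obtain ⟨-, h1, h2, h3⟩ := hH
    have h4 := subg_surj H h1.1
    refine ⟨_, ?_, h4⟩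
    rw [mem_filter]
    refine ⟨?_, ?_, ?_⟩
    · rw [hS, h4]; exact h1.2
    · show Nat.card (subg _).ConnectedComponent = i
      rw [h4]; exact h2
    · show Nat.card (subg _).ConnectedComponent = j
      rw [subg_compl, h4]; exact h3

theorem sum_mod (G : SimpleGraph V) (hG : FourRegular G) (v0 : V)
    {i1 : Fintype G.edgeSet} {i2 : DecidableEq G.edgeSet}
    (S : Finset (Finset G.edgeSet))
    (hS : ∀ F : Finset G.edgeSet, F ∈ S ↔ ∀ v, Nat.card {w // (subg F).Adj v w} = 2) :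
    (32 : ℤ) ∣ (∑ F ∈ S, (-2 : ℤ) ^ (cc F + cc Fᶜ)) -
      (4 * (numDec G 1 1 : ℤ) - 16 * (numDec G 1 2 : ℤ)) := by
  classical
  have hne : Nonempty V := ⟨v0⟩
  have h := arith_inv S (fun F => Fᶜ) (fun F => compl_compl F) (by
    intro F hF
    rw [hS] at hF ⊢
    rw [subg_compl]
    exact (compl_factor G (subg F) hG ⟨subg_le F, hF⟩).2) (by
    intro F _ h
    have h0 : ∃ w, G.Adj v0 w := by
      by_contra hc
      push Not at hc
      have h1 := hG v0
      have h2 : IsEmpty {w // G.Adj v0 w} := ⟨fun w => hc w.1 w.2⟩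
      rw [Nat.card_of_isEmpty] at h1
      omega
    obtain ⟨w, hw⟩ := h0
    by_cases h3 : (⟨s(v0, w), hw⟩ : G.edgeSet) ∈ F
    · have h4 : (⟨s(v0, w), hw⟩ : G.edgeSet) ∉ Fᶜ := by simpa using h3
      exact h4 (by rw [h]; exact h3)
    · have h4 : (⟨s(v0, w), hw⟩ : G.edgeSet) ∈ Fᶜ := by simpa using h3
      exact h3 (by rw [← h]; exact h4)) cc (by
    intro F _
    exact Nat.card_pos)
  rw [numDec_eq G S hS 1 1, numDec_eq G S hS 1 2] at h
  exact h

theorem ham (hE1 : E1_stmt) (hE2 : E2_stmt) (hE3 : E3_stmt) (hE4 : E4_stmt) (hB5 : B5_stmt)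
    (hJC3 : JC3_stmt) (hJC1 : JC1_stmt) (hG5 : G5_stmt) (G : SimpleGraph V)
    (hG : FourRegular G) (hn : 6 ≤ Fintype.card V) (v : V) :
    4 ∣ numDec G 1 1 ∧
      C2Is (decompletion G v) (ZMod 2) ((numDec G 1 1 / 4 + numDec G 1 2 : ℕ) : ℤ) := by
  classical
  have hG' : G.IsRegularOfDegree 4 := by
    intro u
    rw [← hG u, Nat.card_eq_fintype_card, ← SimpleGraph.card_neighborSet_eq_degree]
    rfl
  obtain ⟨e, he, h1, h2, h3⟩ := hE3 V G hG'
  have h4 : (univ.erase v).toList.Nodup := Finset.nodup_toList _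
  have h5 : (univ.erase v).toList.toFinset = univ.erase v := Finset.toList_toFinset _
  have h6 := core hE1 hE2 hE4 hB5 hJC3 G v hG' hn (card_edges V G v hG' hn) e he h1 h2 h3
    (univ.erase v).toList h4 h5
  have h7 : ((univ.erase v).toList ++ [v]).Nodup := by
    rw [List.nodup_append]
    refine ⟨h4, by simp, ?_⟩
    intro a ha b hb
    rw [Finset.mem_toList, mem_erase] at ha
    simp only [List.mem_singleton] at hb
    rw [hb]; exact ha.1
  have h8 : ∀ x, x ∈ (univ.erase v).toList ++ [v] := by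
    intro x
    rw [List.mem_append, Finset.mem_toList, mem_erase, List.mem_singleton]
    by_cases h : x = v
    · exact Or.inr h
    · exact Or.inl ⟨h, mem_univ _⟩
  have h9 : ((univ.erase v).toList ++ [v]).toFinset = univ := by
    ext x
    simp only [List.mem_toFinset, h8, mem_univ]
  have h10 := hJC1 V ((univ.erase v).toList ++ [v]) e h7 (by
    rw [List.length_append, Finset.length_toList, Finset.card_erase_of_mem (mem_univ v),
      Finset.card_univ, List.length_singleton]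
    omega) (by rw [h9]; exact he)
  have h11 := hG5 V G ((univ.erase v).toList ++ [v]) e h7 h8 he h1 h2 h3
  have hP : ∀ F : Finset G.edgeSet, (∀ v : V, ((do
      let a ← F
      pure (a : Sym2 V) : Finset (Sym2 V)).filter fun a => v ∈ a).card = 2) ↔
      ∀ v, Nat.card {w // (subg F).Adj v w} = 2 := by
    intro F
    refine forall_congr' fun v => ?_
    rw [subg_deg F _ (fun x => G5_bind F (fun a : G.edgeSet => (a : Sym2 V)) x) v]
  rw [h11] at h6 h10
  obtain ⟨h13, k, h14, h15⟩ := arith3 (N1 := numDec G 1 1) (N2 := numDec G 1 2) h6 (by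
    refine sum_mod G hG v _ ?_
    intro F
    rw [← hP F, mem_filter]
    exact ⟨fun h => h.2, fun h => ⟨mem_univ _, h⟩⟩) h10
  refine ⟨h13, k, ?_, ?_⟩
  · rw [h14]
    have h2 : Nat.card (ZMod 2) = 2 := by simp
    rw [h2]
    norm_num
  · have h2 : Nat.card (ZMod 2) = 2 := by simp
    rw [h2, Int.modEq_iff_dvd]
    exact h15

end
end CT
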