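import Pool.Agent.helper56.CT.J1

/-!
# Project cd (MP_45d809_mp): part G, the state sum at `x = -4` in terms of 2-factors
-/

namespace CT
open Finset

/-- conjugate label: same type, opposite direction -/
def cj (l : Bool × Bool) : Bool × Bool := (l.1, !l.2)

section
variable {V : Type} [DecidableEq V]

/-- The pairing at `u` given by the types `s` (darts of the same type are paired, if two darts are
of each type). -/
def tp (s : V × Fin 4 → Bool) (u : V) : Fin 3 :=
  if s (u, 0) = s (u, 1) then 0 else if s (u, 0) = s (u, 2) then 1 else 2

/-- The number of loops split off when the vertices of `L` are smoothed along the types `s`. -/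
def kl (s : V × Fin 4 → Bool) : List V → (V × Fin 4 → V × Fin 4) → ℕ
  | [], _ => 0
  | u :: L, e => ls e u (tp s u) + kl s L (sm e u (tp s u))

/-- Labellings: conjugate along the strands, all four labels at every vertex of `L`. -/
def IsLab (L : List V) (e : V × Fin 4 → V × Fin 4) (l : V × Fin 4 → Bool × Bool) : Prop :=
  (∀ d : V × Fin 4, d.1 ∈ L → l (e d) = cj (l d)) ∧
  (∀ d : V × Fin 4, d.1 ∉ L → l d = (false, false)) ∧
  ∀ u ∈ L, Function.Injective fun i => l (u, i)

/-- Types: constant along the strands, two darts of each type at every vertex of `L`. -/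
def IsTyp (L : List V) (e : V × Fin 4 → V × Fin 4) (s : V × Fin 4 → Bool) : Prop :=
  (∀ d : V × Fin 4, d.1 ∈ L → s (e d) = s d) ∧ (∀ d : V × Fin 4, d.1 ∉ L → s d = false) ∧
  ∀ u ∈ L, ((univ : Finset (Fin 4)).filter fun i => s (u, i) = true).card = 2

end

/-- G1a: exchanging two directed strands of the same type changes the parity of the number of
loops. Here `p, p'` are incoming and `q, q'` outgoing (same type).
Sketch: induction on `L`. Step: with `t = tp s u` the smoothing at `u` commutes with the joins at
`p, q, p', q'` (`join_comm`, `lp_comm`), and the hypotheses are inherited by `sm e u t`: at `u` the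
two darts of one type have different directions (injectivity), so for a join of `x, y` with
`l y = cj (l x)` the new strand satisfies `l (e y) = cj (l y) = l x = cj (l (e x))`.
Base `L = []`: `e p ∈ {q, q'}` (its label is `cj (l p) ≠ l p'`), so `e` matches `p, p'` with
`q, q'`; for one of the two joinings there are two loops, for the other one loop. -/
def G1a_stmt : Prop :=
  ∀ (V : Type) [DecidableEq V] (L : List V) (e : V × Fin 4 → V × Fin 4)
    (l : V × Fin 4 → Bool × Bool) (p p' q q' : V × Fin 4),
    L.Nodup → [p, p', q, q'].Nodup → (∀ z ∈ [p, p', q, q'], z.1 ∉ L) →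
    Act (dts L.toFinset ∪ {p, p', q, q'}) e →
    (∀ d ∈ dts L.toFinset ∪ {p, p', q, q'}, l (e d) = cj (l d)) →
    (∀ u ∈ L, Function.Injective fun i => l (u, i)) →
    l p' = l p → l q = cj (l p) → l q' = cj (l p) →
    (-1 : ℤ) ^ (lp e p q + lp (join e p q) p' q' +
        kl (fun d => (l d).1) L (join (join e p q) p' q')) =
      -(-1 : ℤ) ^ (lp e p q' + lp (join e p q') p' q +
        kl (fun d => (l d).1) L (join (join e p q') p' q))

open Classical in
/-- G1: the state sum at `x = -4` as signed count of labellings.
Sketch: induction on `L`. `Z (-4) (u :: L) e = ∑ t, (-4) ^ ls e u t * Z (-4) L (sm e u t)`; by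
induction the last factor is a sum over labellings `l'` of `(L, sm e u t)`. The labellings `l`
(conjugate along the strands of `e`, injective at the vertices of `L`) which are conjugate on both
pairs of `t` at `u` map to the `l'` by restriction (put `(false,false)` at `u`), each fibre has
`4 ^ ls e u t` elements (for one join of `x, y`: if `e x = y` the label of `x` is free, otherwise
`l x = cj (l (e x))`), so the sum is `∑ t, ∑ l compatible with t,
(-1) ^ (ls e u t + kl s L (sm e u t))`, `s = (l ·).1`. If `l` is injective at `u` it is compatible
with exactly one `t`, `t = tp s u`: this gives the right side. If not, and compatible with some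
`t`, then the labels at `u` are `a, a, cj a, cj a` and there are exactly two such `t`, which
contribute opposite signs by G1a. -/
def G1_stmt : Prop :=
  ∀ (V : Type) [Fintype V] [DecidableEq V] (L : List V) (e : V × Fin 4 → V × Fin 4),
    L.Nodup → Act (dts L.toFinset) e →
    Z (-4) L e = ∑ l ∈ (univ : Finset (V × Fin 4 → Bool × Bool)).filter (fun l => IsLab L e l),
      (-1 : ℤ) ^ kl (fun d => (l d).1) L e

open Classical in
/-- G2: number of labellings with given types.
Sketch: induction on `L`: restriction to `sm e u (tp s u)` has fibres with `2 ^ ls e u (tp s u)`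
elements (only the direction is free). -/
def G2_stmt : Prop :=
  ∀ (V : Type) [Fintype V] [DecidableEq V] (L : List V) (e : V × Fin 4 → V × Fin 4)
    (s : V × Fin 4 → Bool),
    L.Nodup → Act (dts L.toFinset) e → IsTyp L e s →
    ((univ : Finset (V × Fin 4 → Bool × Bool)).filter fun l =>
      IsLab L e l ∧ ∀ d : V × Fin 4, (l d).1 = s d).card = 2 ^ kl s L e

open Classical in
/-- G3: number of colourings constant on the circuits.
Sketch: the same induction; for a join of `x, y`: the functions constant along the strands of `e`
with `f x = f y` versus those for `join e x y`: ratio `2 ^ lp e x y` (for the value at inactive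
darts `false` is prescribed). -/
def G3_stmt : Prop :=
  ∀ (V : Type) [Fintype V] [DecidableEq V] (L : List V) (e : V × Fin 4 → V × Fin 4)
    (s : V × Fin 4 → Bool),
    L.Nodup → Act (dts L.toFinset) e → IsTyp L e s →
    ((univ : Finset (V × Fin 4 → Bool)).filter fun f =>
      (∀ d, d.1 ∈ L → f (e d) = f d) ∧ (∀ d, d.1 ∉ L → f d = false) ∧
      ∀ u ∈ L, ∀ i j, s (u, i) = s (u, j) → f (u, i) = f (u, j)).card = 2 ^ kl s L e

open Classical in
/-- G4: number of functions constant along the edges of a graph.
Sketch: they are the functions on the set of connected components. -/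
def G4_stmt : Prop :=
  ∀ (V : Type) [Fintype V] [DecidableEq V] (F : SimpleGraph V),
    ((univ : Finset (V → Bool)).filter fun f => ∀ u w, F.Adj u w → f u = f w).card =
      2 ^ Fintype.card F.ConnectedComponent

/-- The number of connected components of the spanning subgraph with edge set `F`. -/
noncomputable def cc {V : Type} {G : SimpleGraph V} (F : Finset G.edgeSet) : ℕ :=
  Nat.card (SimpleGraph.fromEdgeSet
    ((fun a : G.edgeSet => (a : Sym2 V)) '' (F : Set G.edgeSet))).ConnectedComponent

open Classical in
/-- G5: the state sum at `x = -4` of a 4-regular simple graph, as a sum over its 2-factors.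
Sketch: `L` = a list of all vertices. 2-factors `F` (sets of edges, every vertex in exactly two of
them) correspond to the types `s` with `IsTyp L e s`: `s d = true` iff `s(d.1, (e d).1) ∈ F`. By
G1, G2: `Z (-4) L e = ∑ s, (-1) ^ kl s L e * 2 ^ kl s L e`. By G3 and G4: a function `f` as in G3 is
given by two functions `φ_b : V → Bool`, `f d = φ_(s d) d.1`, constant along `F` (`b = true`), `Fᶜ`
(`b = false`), so `2 ^ kl s L e = 2 ^ (cc F + cc Fᶜ)`. -/
def G5_stmt : Prop :=
  ∀ (V : Type) [Fintype V] [DecidableEq V] (G : SimpleGraph V) [DecidableRel G.Adj]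
    (L : List V) (e : V × Fin 4 → V × Fin 4),
    L.Nodup → (∀ v, v ∈ L) → Act (dts (univ : Finset V)) e → (∀ u i, G.Adj u (e (u, i)).1) →
    (∀ u w, G.Adj u w → ∃ i, (e (u, i)).1 = w) →
    (∀ u i j, (e (u, i)).1 = (e (u, j)).1 → i = j) →
    Z (-4) L e = ∑ F ∈ (univ : Finset (Finset G.edgeSet)).filter (fun F =>
        ∀ v : V, (F.filter fun a => v ∈ (a : Sym2 V)).card = 2),
      (-2 : ℤ) ^ (cc F + cc Fᶜ)

end CT
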