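import Pool.Agent.helper56.CT.Fin1
import Pool.Agent.helper56.CT.Ham
import Pool.Agent.helper27.CT.G5
import Pool.Agent.helper52.CT.G3
import Pool.Agent.helper64.CT.G1
import Pool.Agent.helper72.CT.G1a
import Pool.Agent.helper72.CT.G2
import Pool.Agent.helper72.CT.G4

/-!
# Project cd: assembly of hand-in 3
-/

namespace CT
open Finset

theorem fG5 : G5_stmt := G5 (G1 G1a) G2 G3 G4

theorem fin_ham {V : Type} [Fintype V] [DecidableEq V] (G : SimpleGraph V)
    (hG : FourRegular G) (hn : 6 ≤ Fintype.card V) (v : V) :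
    4 ∣ numDec G 1 1 ∧
      C2Is (decompletion G v) (ZMod 2) ((numDec G 1 1 / 4 + numDec G 1 2 : ℕ) : ℤ) :=
  ham fE1 fE2 E3 fE4 fB5 fJC3 fJC1 fG5 G hG hn v

theorem c2_unique {V : Type} [Fintype V] [DecidableEq V] (H : SimpleGraph V) (r s : ℤ)
    (h1 : C2Is H (ZMod 2) r) (h2 : C2Is H (ZMod 2) s) : (2 : ℤ) ∣ s - r := by
  obtain ⟨k, hk, hr⟩ := h1
  obtain ⟨m, hm, hs⟩ := h2
  have h3 : Nat.card (ZMod 2) = 2 := by simp
  rw [h3] at hk hm hr hs
  have h4 : k = m := by omega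
  subst h4
  have h5 := Int.ModEq.dvd (hr.symm.trans hs)
  exact_mod_cast h5

theorem fin_ham_prime {V : Type} [Fintype V] [DecidableEq V] (G : SimpleGraph V)
    (hG : PrimeAncestor G) (v : V) (h : C2Is (decompletion G v) (ZMod 2) (-1)) :
    Nonempty (G ≃g (⊤ : SimpleGraph (Fin 5))) ∨ Odd (numDec G 1 1 / 4 + numDec G 1 2) := by
  rcases Nat.lt_or_ge (Fintype.card V) 6 with h5 | h6
  · exact Or.inl (complete_of_five G hG.regular (by have := hG.five_le; omega))
  · right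
    have h1 := (fin_ham G hG.regular h6 v).2
    have h2 := c2_unique _ _ _ h1 h
    rw [Nat.odd_iff]
    omega

end CT
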