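import Pool.Agent.helper56.CT.SpecB

namespace CT
open Finset

theorem E3 : E3_stmt := by
  classical
  intro V _ _ G _ hG
  have hcard : ∀ u, Fintype.card (G.neighborSet u) = 4 := fun u => by
    rw [SimpleGraph.card_neighborSet_eq_degree]; exact hG u
  have f : ∀ u, Fin 4 ≃ G.neighborSet u := fun u => (Fintype.equivFinOfCardEq (hcard u)).symm
  have hadj : ∀ u i, G.Adj u (f u i : V) := fun u i => (f u i).2
  let e : V × Fin 4 → V × Fin 4 := fun d =>
    ((f d.1 d.2 : V), (f (f d.1 d.2 : V)).symm ⟨d.1, (hadj d.1 d.2).symm⟩)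
  have he1 : ∀ u i, (e (u, i)).1 = (f u i : V) := fun u i => rfl
  refine ⟨e, ⟨?_, ?_⟩, ?_, ?_, ?_⟩
  · rintro ⟨u, i⟩
    have h1 : ∀ (w : V) (x : G.neighborSet u) (h : (x : V) = w) (j : Fin 4)
        (hj : (f w j : V) = u), x = f u i →
        (((f w j : V), (f (f w j : V)).symm ⟨w, (hadj w j).symm⟩) : V × Fin 4) = (u, i) := by
      intro w x h j hj hx
      have key : ∀ (y : V) (hy : G.Adj y w), y = u →
          ((y, (f y).symm ⟨w, hy⟩) : V × Fin 4) = (u, i) := by
        intro y hy hyu
        subst hyu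
        have : (⟨w, hy⟩ : G.neighborSet y) = f y i := by
          rw [← hx]; exact Subtype.ext h.symm
        rw [this, Equiv.symm_apply_apply]
      exact key _ _ hj
    refine h1 (f u i : V) (f u i) rfl _ ?_ rfl
    show ((f (f u i : V)) ((f (f u i : V)).symm ⟨u, (hadj u i).symm⟩) : V) = u
    rw [Equiv.apply_symm_apply]
  · rintro ⟨u, i⟩
    constructor
    · intro _
      simp [dts]
    · intro _ h
      have h1 : (f u i : V) = u := congrArg Prod.fst h
      have h2 := hadj u i
      rw [h1] at h2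
      exact G.loopless.irrefl _ h2
  · intro u i
    exact hadj u i
  · intro u w h
    refine ⟨(f u).symm ⟨w, h⟩, ?_⟩
    rw [he1, Equiv.apply_symm_apply]
  · intro u i j h
    rw [he1, he1] at h
    exact (f u).injective (Subtype.ext h)

end CT
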