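import Pool.Agent.helper56.CT.Problem

namespace CT
open Finset

section
variable {V : Type} [Fintype V] [DecidableEq V]

theorem near_of_three (G : SimpleGraph V) (hn : 6 ≤ Fintype.card V) (h : ThreeFromBipartite G) :
    HasNearBipartitePart G := by
  classical
  obtain ⟨R, hR, ⟨C⟩⟩ := h
  refine ⟨univ, fun v => decide (C v = 0), by rw [Finset.card_univ]; omega, ?_⟩
  unfold NearBipartite
  have h1 : ∀ p ∈ (univ : Finset (V × V)).filter (fun p =>
      G.Adj p.1 p.2 ∧ p.1 ∈ (univ : Finset V) ∧ (p.2 ∉ (univ : Finset V) ∨
        decide (C p.1 = 0) = decide (C p.2 = 0))), s(p.1, p.2) ∈ R := by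
    intro p hp
    rw [mem_filter] at hp
    obtain ⟨-, h2, -, h3⟩ := hp
    by_contra h4
    have h5 : (G.deleteEdges (R : Set (Sym2 V))).Adj p.1 p.2 := by
      rw [SimpleGraph.deleteEdges_adj]
      exact ⟨h2, by simpa using h4⟩
    have h6 := C.valid h5
    rcases h3 with h3 | h3
    · exact h3 (mem_univ _)
    · have h7 : (C p.1 = 0) ↔ (C p.2 = 0) := by
        simpa using h3
      have a1 : C p.1 = 0 ∨ C p.1 = 1 := by
        have : ∀ x : Fin 2, x = 0 ∨ x = 1 := by decide
        exact this _
      have a2 : C p.2 = 0 ∨ C p.2 = 1 := by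
        have : ∀ x : Fin 2, x = 0 ∨ x = 1 := by decide
        exact this _
      apply h6
      show C p.1 = C p.2
      rcases a1 with a1 | a1 <;> rcases a2 with a2 | a2
      · rw [a1, a2]
      · have := h7.1 a1
        rw [a2] at this; exact absurd this (by decide)
      · have := h7.2 a2
        rw [a1] at this; exact absurd this (by decide)
      · rw [a1, a2]
  have h2 := Finset.card_le_mul_card_image_of_maps_to h1 2 (by
    intro b _
    induction b using Sym2.ind with
    | _ x y =>
      refine (Finset.card_le_card (t := {(x, y), (y, x)}) ?_).trans (Finset.card_le_two)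
      intro p hp
      rw [mem_filter] at hp
      have h3 := hp.2
      rw [Sym2.eq_iff] at h3
      rw [mem_insert, mem_singleton]
      rcases h3 with h3 | h3
      · exact Or.inl (Prod.ext h3.1 h3.2)
      · exact Or.inr (Prod.ext h3.1 h3.2))
  calc _ ≤ 2 * R.card := h2
    _ ≤ 6 := by omega

theorem near_of_K33 (G : SimpleGraph V) (hG : FourRegular G) (h : ContainsK33 G) :
    HasNearBipartitePart G := by
  classical
  obtain ⟨a, b, ha, hb, hab⟩ := h
  have hdisj : ∀ i j, a i ≠ b j := fun i j h => by
    have := hab i j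
    rw [h] at this
    exact G.loopless.irrefl _ this
  set A := univ.image a with hA
  set B := univ.image b with hB
  have cA : A.card = 3 := by rw [hA, Finset.card_image_of_injective _ ha]; rfl
  have cB : B.card = 3 := by rw [hB, Finset.card_image_of_injective _ hb]; rfl
  have hAB : Disjoint A B := by
    rw [Finset.disjoint_left]
    intro x hx hy
    rw [hA, mem_image] at hx
    rw [hB, mem_image] at hy
    obtain ⟨i, -, rfl⟩ := hx
    obtain ⟨j, -, hj⟩ := hy
    exact hdisj i j hj.symm
  have cW : (A ∪ B).card = 6 := by rw [Finset.card_union_of_disjoint hAB, cA, cB]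
  have hdeg : ∀ u, (univ.filter fun w => G.Adj u w).card = 4 := by
    intro u
    rw [← hG u, Nat.card_eq_fintype_card, Fintype.card_subtype]
  refine ⟨A ∪ B, fun v => decide (v ∈ A), by omega, ?_⟩
  unfold NearBipartite
  have h1 : ∀ p ∈ (univ : Finset (V × V)).filter (fun p =>
      G.Adj p.1 p.2 ∧ p.1 ∈ A ∪ B ∧ (p.2 ∉ A ∪ B ∨
        decide (p.1 ∈ A) = decide (p.2 ∈ A))), p.1 ∈ A ∪ B := by
    intro p hp
    rw [mem_filter] at hp
    exact hp.2.2.1
  have h2 := Finset.card_le_mul_card_image_of_maps_to h1 1 (by
    intro x hx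
    have h3 : ∃ Y : Finset V, Y.card = 3 ∧ (∀ y ∈ Y, G.Adj x y) ∧
        ∀ p : V × V, p.1 = x → (p.2 ∉ A ∪ B ∨ decide (p.1 ∈ A) = decide (p.2 ∈ A)) →
          p.2 ∉ Y := by
      rw [mem_union] at hx
      rcases hx with hx | hx
      · refine ⟨B, cB, ?_, ?_⟩
        · intro y hy
          rw [hA, mem_image] at hx
          rw [hB, mem_image] at hy
          obtain ⟨i, -, rfl⟩ := hx
          obtain ⟨j, -, rfl⟩ := hy
          exact hab i j
        · intro p hp1 hp2 hp3
          rcases hp2 with hp2 | hp2
          · exact hp2 (mem_union_right _ hp3)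
          · rw [hp1] at hp2
            have : p.2 ∈ A := by
              have : decide (p.2 ∈ A) = true := by rw [← hp2]; simpa using hx
              simpa using this
            exact (Finset.disjoint_left.1 hAB) this hp3
      · refine ⟨A, cA, ?_, ?_⟩
        · intro y hy
          rw [hA, mem_image] at hy
          rw [hB, mem_image] at hx
          obtain ⟨i, -, rfl⟩ := hx
          obtain ⟨j, -, rfl⟩ := hy
          exact (hab j i).symm
        · intro p hp1 hp2 hp3
          rcases hp2 with hp2 | hp2
          · exact hp2 (mem_union_left _ hp3)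
          · rw [hp1] at hp2
            have : x ∈ A := by
              have : decide (x ∈ A) = true := by rw [hp2]; simpa using hp3
              simpa using this
            exact (Finset.disjoint_left.1 hAB) this hx
    obtain ⟨Y, cY, hY1, hY2⟩ := h3
    have h4 : ((univ.filter fun w => G.Adj x w) \ Y).card = 1 := by
      rw [Finset.card_sdiff_of_subset, hdeg, cY]
      intro y hy
      rw [mem_filter]
      exact ⟨mem_univ _, hY1 y hy⟩
    rw [← h4]
    refine Finset.card_le_card_of_injOn (fun p => p.2) ?_ ?_
    · intro p hp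
      rw [Finset.mem_coe, mem_filter, mem_filter] at hp
      obtain ⟨⟨-, h5, -, h6⟩, h7⟩ := hp
      rw [Finset.mem_coe, mem_sdiff, mem_filter]
      refine ⟨⟨mem_univ _, ?_⟩, hY2 p h7 h6⟩
      rw [← h7]; exact h5
    · intro p hp q hq hpq
      rw [Finset.mem_coe, mem_filter, mem_filter] at hp hq
      exact Prod.ext (hp.2.trans hq.2.symm) hpq)
  calc _ ≤ 1 * (A ∪ B).card := h2
    _ ≤ 6 := by omega

theorem complete_of_five (G : SimpleGraph V) (hG : FourRegular G) (hn : Fintype.card V = 5) :
    Nonempty (G ≃g (⊤ : SimpleGraph (Fin 5))) := by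
  classical
  have hdeg : ∀ u, (univ.filter fun w => G.Adj u w).card = 4 := by
    intro u
    rw [← hG u, Nat.card_eq_fintype_card, Fintype.card_subtype]
  have htop : G = ⊤ := by
    ext u w
    rw [SimpleGraph.top_adj]
    constructor
    · exact fun h => h.ne
    · intro h
      have h1 : (univ.filter fun w => G.Adj u w) = univ.erase u := by
        refine Finset.eq_of_subset_of_card_le ?_ ?_
        · intro x hx
          rw [mem_filter] at hx
          rw [mem_erase]
          exact ⟨hx.2.ne.symm, mem_univ _⟩
        · rw [hdeg, Finset.card_erase_of_mem (mem_univ _), Finset.card_univ, hn]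
      have h2 : w ∈ univ.filter fun w => G.Adj u w := by
        rw [h1, mem_erase]
        exact ⟨Ne.symm h, mem_univ _⟩
      rw [mem_filter] at h2
      exact h2.2
  subst htop
  have f : V ≃ Fin 5 := Fintype.equivFinOfCardEq hn
  exact ⟨SimpleGraph.Iso.completeGraph f⟩

theorem no_prime_six (G : SimpleGraph V) (hG : PrimeAncestor G) : Fintype.card V ≠ 6 := by
  classical
  intro hn
  have hdeg : ∀ u, (univ.filter fun w => G.Adj u w).card = 4 := by
    intro u
    rw [← hG.regular u, Nat.card_eq_fintype_card, Fintype.card_subtype]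
  obtain ⟨u⟩ : Nonempty V := by
    rw [← Fintype.card_pos_iff]; omega
  obtain ⟨w, hw⟩ : (univ.filter fun w => G.Adj u w).Nonempty := by
    rw [← Finset.card_pos, hdeg]; norm_num
  rw [mem_filter] at hw
  apply hG.triangles u w hw.2
  have h1 : (univ.filter fun z => G.Adj u z) ∪ (univ.filter fun z => G.Adj w z) = univ := by
    rw [Finset.eq_univ_iff_forall]
    intro x
    by_contra hx
    rw [mem_union, mem_filter, mem_filter, not_or] at hx
    simp only [mem_univ, true_and] at hx
    have hxu : x ≠ u := by rintro rfl; exact hx.2 hw.2.symm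
    have hxw : x ≠ w := by rintro rfl; exact hx.1 hw.2
    have h2 : (univ.filter fun z => G.Adj x z) ⊆ ((univ.erase x).erase u).erase w := by
      intro z hz
      rw [mem_filter] at hz
      rw [mem_erase, mem_erase, mem_erase]
      refine ⟨?_, ?_, hz.2.ne.symm, mem_univ _⟩
      · rintro rfl; exact hx.2 hz.2.symm
      · rintro rfl; exact hx.1 hz.2.symm
    have h3 := Finset.card_le_card h2
    rw [hdeg, Finset.card_erase_of_mem, Finset.card_erase_of_mem,
      Finset.card_erase_of_mem (mem_univ _), Finset.card_univ, hn] at h3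
    · omega
    · rw [mem_erase]; exact ⟨Ne.symm hxu, mem_univ _⟩
    · rw [mem_erase, mem_erase]; exact ⟨hw.2.ne.symm, Ne.symm hxw, mem_univ _⟩
  have h2 := Finset.card_union_add_card_inter (univ.filter fun z => G.Adj u z)
    (univ.filter fun z => G.Adj w z)
  rw [h1, hdeg, hdeg, Finset.card_univ, hn] at h2
  rw [Nat.card_eq_fintype_card, Fintype.card_subtype]
  have h3 : (univ.filter fun z => G.Adj u z) ∩ (univ.filter fun z => G.Adj w z) =
      univ.filter fun z => G.Adj u z ∧ G.Adj w z := by
    ext z
    simp [mem_inter, mem_filter]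
  rw [← h3]
  omega

end
end CT
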