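import Pool.Agent.helper56.CT.Defs

namespace CT
open Finset

section
variable {D : Type*} [DecidableEq D]

omit [DecidableEq D] in
theorem inj_of {e : D → D} (he : ∀ d, e (e d) = d) {a b : D} : e a = e b ↔ a = b :=
  ⟨fun h => by rw [← he a, h, he], fun h => by rw [h]⟩

omit [DecidableEq D] in
theorem eq_swap {e : D → D} (he : ∀ d, e (e d) = d) {a b : D} : e a = b ↔ a = e b :=
  ⟨fun h => by rw [← h, he], fun h => by rw [h, he]⟩

theorem join_left (e : D → D) (x y : D) : join e x y x = x := by simp [join]
theorem join_right (e : D → D) (x y : D) : join e x y y = y := by simp [join]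

theorem join_symm (e : D → D) (he : ∀ d, e (e d) = d) (x y : D) : join e x y = join e y x := by
  funext z
  unfold join
  by_cases h1 : z = x <;> by_cases h2 : z = y <;> by_cases h3 : e z = x <;>
    by_cases h4 : e z = y <;> simp_all

theorem lp_symm (e : D → D) (he : ∀ d, e (e d) = d) (x y : D) : lp e x y = lp e y x := by
  unfold lp
  by_cases h1 : e x = y
  · have : e y = x := by rw [← h1, he]
    simp [h1, this]
  · have : e y ≠ x := by
      intro h; apply h1; rw [← h, he]
    simp [h1, this]

theorem join_invol (e : D → D) (he : ∀ d, e (e d) = d) {x y : D} (hxy : x ≠ y)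
    (hx : e x ≠ x) (hy : e y ≠ y) :
    ∀ d, join e x y (join e x y d) = d := by
  intro d
  have i : ∀ a b, e a = e b ↔ a = b := fun a b => inj_of he
  unfold join
  by_cases h1 : d = x
  · simp [h1]
  by_cases h2 : d = y
  · simp [h2]
  by_cases h3 : e d = x
  · have h3' : d = e x := (eq_swap he).1 h3
    subst h3'
    have h5 : e y ≠ x := by
      intro h; apply h2; rw [← h, he]
    simp [h1, h2, h5, hy, he]
    intro h; exact absurd h.symm hxy
  by_cases h4 : e d = y
  · have h4' : d = e y := (eq_swap he).1 h4
    subst h4'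
    have h5 : e x ≠ y := by
      intro h; apply h1; rw [← h, he]
    simp [h1, h2, h5, hx, he, hxy.symm]
  simp [h1, h2, h3, h4, he]

theorem join_act {A : Finset D} {e : D → D} (h : Act A e) {x y : D} (hx : x ∈ A) (hy : y ∈ A)
    (hxy : x ≠ y) : Act ((A.erase x).erase y) (join e x y) := by
  obtain ⟨he, hA⟩ := h
  have hx' := (hA x).2 hx
  have hy' := (hA y).2 hy
  refine ⟨join_invol e he hxy hx' hy', ?_⟩
  intro d
  rw [mem_erase, mem_erase, ← hA d]
  unfold join
  by_cases h1 : d = x
  · simp [h1]
  by_cases h2 : d = y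
  · simp [h2]
  simp only [h1, h2, or_self, if_false, ne_eq, not_false_eq_true, true_and]
  by_cases h3 : e d = x
  · have h3' : d = e x := (eq_swap he).1 h3
    have h5 : e y ≠ d := by
      rw [h3']; intro h; exact hxy ((inj_of he).1 h).symm
    simp only [h3, if_true]
    constructor
    · intro _ h; exact h1 h.symm
    · intro _; exact h5
  by_cases h4 : e d = y
  · have h4' : d = e y := (eq_swap he).1 h4
    have h5 : e x ≠ d := by
      rw [h4']; intro h; exact hxy ((inj_of he).1 h)
    simp only [h4, hxy.symm, if_true, if_false]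
    constructor
    · intro _ h; exact h2 h.symm
    · intro _; exact h5
  simp [h3, h4]

theorem join_comm (e : D → D) (he : ∀ d, e (e d) = d) {x y z w : D} (hxy : x ≠ y)
    (hxz : x ≠ z) (hxw : x ≠ w) (hyz : y ≠ z) (hyw : y ≠ w) (hzw : z ≠ w)
    (hx : e x ≠ x) (hy : e y ≠ y) (hz : e z ≠ z) (hw : e w ≠ w) :
    join (join e x y) z w = join (join e z w) x y := by
  funext d
  have i : ∀ a b, e a = e b ↔ a = b := fun a b => inj_of he
  have hyx := hxy.symm
  have hzx := hxz.symm
  have hwx := hxw.symm
  have hzy := hyz.symm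
  have hwy := hyw.symm
  have hwz := hzw.symm
  unfold join
  by_cases d1 : d = x
  · subst d1; simp [hxz, hxw]
  by_cases d2 : d = y
  · subst d2; simp [hyz, hyw]
  by_cases d3 : d = z
  · subst d3; simp [hxz.symm, hyz.symm]
  by_cases d4 : d = w
  · subst d4; simp [hxw.symm, hyw.symm]
  have d1' : x ≠ d := fun h => d1 h.symm
  have d2' : y ≠ d := fun h => d2 h.symm
  have d3' : z ≠ d := fun h => d3 h.symm
  have d4' : w ≠ d := fun h => d4 h.symm
  have k : ∀ a b, e a ≠ b → e b ≠ a := fun a b h g => h (by rw [← g, he])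
  by_cases e1 : e d = x
  · subst e1
    by_cases f1 : e y = z
    · subst f1; have := k _ _ hzw; simp [*]
    · by_cases f2 : e y = w
      · subst f2; have := k _ _ f1; simp [*]
      · simp [*]
  by_cases e2 : e d = y
  · subst e2
    by_cases f1 : e x = z
    · subst f1; have := k _ _ hzw; simp [*]
    · by_cases f2 : e x = w
      · subst f2; have := k _ _ f1; simp [*]
      · simp [*]
  by_cases e3 : e d = z
  · subst e3
    by_cases f1 : e w = x
    · subst f1; have := k _ _ hxy; simp [*]
    · by_cases f2 : e w = y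
      · subst f2; have := k _ _ f1; simp [*]
      · simp [*]
  by_cases e4 : e d = w
  · subst e4
    by_cases f1 : e z = x
    · subst f1; have := k _ _ hxy; simp [*]
    · by_cases f2 : e z = y
      · subst f2; have := k _ _ f1; simp [*]
      · simp [*]
  simp [*]

theorem lp_comm (e : D → D) (he : ∀ d, e (e d) = d) {x y z w : D} (hxy : x ≠ y)
    (hxz : x ≠ z) (hxw : x ≠ w) (hyz : y ≠ z) (hyw : y ≠ w) (hzw : z ≠ w)
    (hx : e x ≠ x) (hy : e y ≠ y) (hz : e z ≠ z) (hw : e w ≠ w) :
    lp e x y + lp (join e x y) z w = lp e z w + lp (join e z w) x y := by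
  have i : ∀ a b, e a = e b ↔ a = b := fun a b => inj_of he
  have hyx := hxy.symm
  have hzx := hxz.symm
  have hwx := hxw.symm
  have hzy := hyz.symm
  have hwy := hyw.symm
  have hwz := hzw.symm
  have k : ∀ a b, e a ≠ b → e b ≠ a := fun a b h g => h (by rw [← g, he])
  unfold lp join
  by_cases e1 : e x = y
  · subst e1
    by_cases e2 : e z = w
    · subst e2; simp [*]
    · have := k _ _ e2; simp [*]
  by_cases e2 : e z = w
  · subst e2; have := k _ _ e1; simp [*]
  by_cases e3 : e x = z
  · subst e3
    have := k _ _ e2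
    by_cases e4 : e y = w
    · subst e4; simp [*]
    · have := k _ _ e4; simp [*]
  by_cases e5 : e x = w
  · subst e5
    by_cases e4 : e y = z
    · subst e4; simp [*]
    · have := k _ _ e4; simp [*]
  have a1 := k _ _ e1
  have a2 := k _ _ e2
  have a3 := k _ _ e3
  have a5 := k _ _ e5
  simp [*]
  split_ifs <;> assumption

/-- Joining `p, y` and `q, z` when `e p = q` is joining `y, z` after closing the strand `p q`. -/
theorem join_chain (e : D → D) (he : ∀ d, e (e d) = d) {p q y z : D} (hpq : e p = q)
    (hne : p ≠ q) (hpy : p ≠ y) (hpz : p ≠ z) (hqy : q ≠ y) (hqz : q ≠ z) (hyz : y ≠ z)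
    (hy : e y ≠ y) (hz : e z ≠ z) :
    join (join e p y) q z = join (join e p q) y z ∧ lp e p y = 0 ∧
      lp (join e p y) q z = lp (join e p q) y z := by
  have i : ∀ a b, e a = e b ↔ a = b := fun a b => inj_of he
  have hne' := hne.symm
  have hyp := hpy.symm
  have hzp := hpz.symm
  have hyq := hqy.symm
  have hzq := hqz.symm
  have hzy := hyz.symm
  have k : ∀ a b, e a ≠ b → e b ≠ a := fun a b h g => h (by rw [← g, he])
  have hqp : e q = p := by rw [← hpq, he]
  refine ⟨?_, ?_, ?_⟩
  · funext d
    unfold join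
    by_cases d1 : d = p
    · subst d1; simp [*]
    by_cases d2 : d = q
    · subst d2; simp [*]
    by_cases d3 : d = y
    · subst d3; simp [*]
    by_cases d4 : d = z
    · subst d4; simp [*]
    have d1' : p ≠ d := fun h => d1 h.symm
    have d2' : q ≠ d := fun h => d2 h.symm
    have d3' : y ≠ d := fun h => d3 h.symm
    have d4' : z ≠ d := fun h => d4 h.symm
    have a1 : e d ≠ p := by intro h; apply d2; rw [← hpq, ← h, he]
    have a2 : e d ≠ q := by intro h; apply d1; rw [← hqp, ← h, he]
    have b1 : e y ≠ p := by intro h; apply hqy; rw [← hpq, ← h, he]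
    have b2 : e y ≠ q := by intro h; apply hpy; rw [← hqp, ← h, he]
    have c1 : e z ≠ p := by intro h; apply hqz; rw [← hpq, ← h, he]
    have c2 : e z ≠ q := by intro h; apply hpz; rw [← hqp, ← h, he]
    by_cases e1 : e d = y
    · by_cases e2 : e y = z
      · simp_all
      · simp_all
    · by_cases e2 : e d = z
      · by_cases e3 : e z = y <;> simp_all
      · simp_all
  · unfold lp; rw [hpq]; simp [hqy]
  · unfold lp join
    have b1 : e y ≠ p := by intro h; apply hqy; rw [← hpq, ← h, he]
    have b2 : e y ≠ q := by intro h; apply hpy; rw [← hqp, ← h, he]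
    have c1 : e z ≠ p := by intro h; apply hqz; rw [← hpq, ← h, he]
    have c2 : e z ≠ q := by intro h; apply hpz; rw [← hqp, ← h, he]
    simp_all
end
end CT
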