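import Pool.Agent.helper56.CT.SpecA
import Pool.Agent.helper56.CT.J1

namespace CT
open Finset

theorem D3_all (i i1 i2 i3 k : Fin 4) (h : [i, i1, i2, i3].Nodup) :
    k = i ∨ k = i1 ∨ k = i2 ∨ k = i3 := by
  revert i i1 i2 i3 k
  decide

theorem D3 (hD0 : D0_stmt) (hD1 : D1_stmt) (hD2 : D2_stmt) : D3_stmt := by
  intro V _ L e u w i i1 i2 i3 j j1 j2 j3 hL hi hj hact he
  have h2 := hD2 V (-4) L e u w i i1 i2 i3 j j1 j2 j3 hL hi hj hact he
  have huw : u ≠ w := by
    intro h; rw [h] at hL; simp at hL
  have huL : u ∉ L := by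
    intro h; simp [h] at hL
  have hwL : w ∉ L := by
    intro h; simp [h] at hL
  have hLn : L.Nodup := by
    simp only [List.nodup_cons] at hL; exact hL.2.2
  have ci := D3_all i i1 i2 i3
  have cj := D3_all j j1 j2 j3
  set e0 := join e (u, i) (w, j) with he0
  have ha0 : Act (dts L.toFinset ∪ {(u, i1), (u, i2), (u, i3), (w, j1), (w, j2), (w, j3)}) e0 := by
    have h3 := join_act hact (x := (u, i)) (y := (w, j)) (by simp [dts]) (by simp [dts])
      (by intro h; exact huw (Prod.ext_iff.1 h).1)
    convert h3 using 1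
    ext ⟨x, k⟩
    simp only [List.nodup_cons, List.mem_cons, not_or, List.not_mem_nil, not_false_eq_true,
      List.nodup_nil, and_true] at hi hj
    simp only [dts, mem_union, mem_product, List.mem_toFinset, mem_univ, and_true, mem_insert,
      Prod.mk.injEq, mem_singleton, List.toFinset_cons, mem_erase, ne_eq, not_and]
    constructor
    · rintro (h | ⟨rfl, rfl⟩ | ⟨rfl, rfl⟩ | ⟨rfl, rfl⟩ | ⟨rfl, rfl⟩ | ⟨rfl, rfl⟩ | ⟨rfl, rfl⟩)
      · refine ⟨fun h1 => ?_, fun h1 => ?_, Or.inr (Or.inr h)⟩
        · rw [h1] at h; exact absurd h hwL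
        · rw [h1] at h; exact absurd h huL
      · exact ⟨fun h => absurd h huw, fun _ => Ne.symm hi.1.1, Or.inl rfl⟩
      · exact ⟨fun h => absurd h huw, fun _ => Ne.symm hi.1.2.1, Or.inl rfl⟩
      · exact ⟨fun h => absurd h huw, fun _ => Ne.symm hi.1.2.2, Or.inl rfl⟩
      · exact ⟨fun _ => Ne.symm hj.1.1, fun h => absurd h.symm huw, Or.inr (Or.inl rfl)⟩
      · exact ⟨fun _ => Ne.symm hj.1.2.1, fun h => absurd h.symm huw, Or.inr (Or.inl rfl)⟩
      · exact ⟨fun _ => Ne.symm hj.1.2.2, fun h => absurd h.symm huw, Or.inr (Or.inl rfl)⟩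
    · rintro ⟨h1, h2, rfl | rfl | h⟩
      · rcases ci k (by simpa using hi) with rfl | rfl | rfl | rfl
        · exact absurd rfl (h2 rfl)
        · simp
        · simp
        · simp
      · rcases cj k (by simpa using hj) with rfl | rfl | rfl | rfl
        · exact absurd rfl (h1 rfl)
        · simp
        · simp
        · simp
      · exact Or.inl h
  have hnod : [(u, i1), (u, i2), (u, i3), (w, j1), (w, j2), (w, j3)].Nodup := by
    simp only [List.nodup_cons, List.mem_cons, not_or, List.not_mem_nil, not_false_eq_true,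
      List.nodup_nil, and_true] at hi hj
    simp only [List.nodup_cons, List.mem_cons, Prod.mk.injEq, not_or, not_and,
      List.not_mem_nil, not_false_eq_true, List.nodup_nil, and_true]
    refine ⟨⟨fun _ => hi.2.1.1, fun _ => hi.2.1.2, fun h => absurd h huw, fun h => absurd h huw,
      fun h => absurd h huw⟩, ⟨fun _ => hi.2.2, fun h => absurd h huw, fun h => absurd h huw,
      fun h => absurd h huw⟩, ⟨fun h => absurd h huw, fun h => absurd h huw,
      fun h => absurd h huw⟩, ⟨fun _ => hj.2.1.1, fun _ => hj.2.1.2⟩, fun _ => hj.2.2⟩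
  have h1 := hD1 V L e0 (u, i1) (u, i2) (u, i3) (w, j1) (w, j2) (w, j3) hLn hnod (by
    intro z hz
    simp only [List.mem_cons, List.not_mem_nil, or_false] at hz
    rcases hz with rfl | rfl | rfl | rfl | rfl | rfl <;> assumption) ha0
  have hfix : ∀ z ∈ [(u, i1), (u, i2), (u, i3), (w, j1), (w, j2), (w, j3)], e0 z ≠ z := by
    intro z hz
    rw [ha0.2, mem_union]
    right
    simpa using hz
  have key : ∀ a b c d f g : V × Fin 4,
      [a, b, c, d, f, g].Perm [(u, i1), (u, i2), (u, i3), (w, j1), (w, j2), (w, j3)] →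
      T3 (-4) L e0 a b c d f g = T3 (-4) L e0 c d a b f g := by
    intro a b c d f g hp
    exact (hD0 V (-4) L e0 a b c d f g ha0.1 (hp.nodup_iff.2 hnod)
      (fun z hz => hfix z (hp.mem_iff.1 hz))).1
  generalize hA : ((u, i1) : V × Fin 4) = A at *
  generalize hB : ((u, i2) : V × Fin 4) = B at *
  generalize hC : ((u, i3) : V × Fin 4) = C at *
  generalize hD : ((w, j1) : V × Fin 4) = D at *
  generalize hE : ((w, j2) : V × Fin 4) = E at *
  generalize hF : ((w, j3) : V × Fin 4) = F at *
  have k1 := key A B C D E F (List.Perm.refl _)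
  have k2 := key A B C E D F (by
    refine List.Perm.cons _ (List.Perm.cons _ (List.Perm.cons _ ?_))
    exact List.Perm.swap _ _ _)
  have k3 := key A B C F D E (by
    refine List.Perm.cons _ (List.Perm.cons _ (List.Perm.cons _ ?_))
    exact (List.Perm.swap _ _ _).trans (List.Perm.cons _ (List.Perm.swap _ _ _)))
  have k4 := key A C B D E F (by
    refine List.Perm.cons _ ?_
    exact List.Perm.swap _ _ _)
  have k5 := key A C B E D F (by
    refine List.Perm.cons _ ?_
    refine (List.Perm.swap _ _ _).trans ?_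
    refine List.Perm.cons _ (List.Perm.cons _ ?_)
    exact List.Perm.swap _ _ _)
  have k6 := key A C B F D E (by
    refine List.Perm.cons _ ?_
    refine (List.Perm.swap _ _ _).trans ?_
    refine List.Perm.cons _ (List.Perm.cons _ ?_)
    exact (List.Perm.swap _ _ _).trans (List.Perm.cons _ (List.Perm.swap _ _ _)))
  rw [h2]
  linarith

end CT
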