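import Pool.Agent.helper56.CT.SpecA

namespace CT
open Finset

theorem JZ3 : JZ3_stmt := by
  intro V _ x y L
  induction L with
  | nil => intro e; simp [Z]
  | cons u L ih =>
    intro e
    have hsum : Z x (u :: L) e - Z y (u :: L) e =
        ∑ t : Fin 3, (x ^ ls e u t * Z x L (sm e u t) - y ^ ls e u t * Z y L (sm e u t)) := by
      simp only [Z, Finset.sum_sub_distrib]
    rw [hsum]
    refine Finset.dvd_sum ?_
    intro t _
    have h1 : x ^ ls e u t * Z x L (sm e u t) - y ^ ls e u t * Z y L (sm e u t) =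
        x ^ ls e u t * (Z x L (sm e u t) - Z y L (sm e u t)) +
          (x ^ ls e u t - y ^ ls e u t) * Z y L (sm e u t) := by ring
    rw [h1]
    exact dvd_add (Dvd.dvd.mul_left (ih _) _) (Dvd.dvd.mul_right (sub_dvd_pow_sub_pow _ _ _) _)

theorem JC1 (hJZ3 : JZ3_stmt) (hJZ5 : JZ5_stmt) (hJZ6 : JZ6_stmt) : JC1_stmt := by
  intro V _ _ L e hL hlen hact
  rcases List.eq_nil_or_concat L with h | ⟨L', v, h⟩
  · rw [h] at hlen; simp at hlen
  · rw [List.concat_eq_append] at h
    subst h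
    have h1 : L'.Nodup := (List.nodup_append.1 hL).1
    have h2 : v ∉ L' := by
      intro hv
      exact (List.nodup_append.1 hL).2.2 v hv v (by simp) rfl
    have h3 : insert v L'.toFinset = (L' ++ [v]).toFinset := by
      ext x; simp
    have h4 : Act (dts (insert v L'.toFinset)) e := by rw [h3]; exact hact
    have h5 := hJZ5 V (-4) v L' e h1 h2 h4
    have hl : 2 ≤ L'.length := by simp at hlen; omega
    have h6 := hJZ6 V v L' e h1 h2 (by intro h; rw [h] at hl; simp at hl) h4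
    have h7 : (2 : ℤ) ∣ Z 2 L' e := by
      refine dvd_trans ?_ h6
      exact dvd_pow_self 2 (by omega)
    have h8 := hJZ3 V (-4) 2 L' e
    norm_num at h8
    rw [h5]
    obtain ⟨a, ha⟩ := h7
    obtain ⟨b, hb⟩ := h8
    have h9 : Z (-4) L' e = 2 * (a + 3 * b) := by linarith
    rw [h9]
    exact ⟨a + 3 * b, by ring⟩

theorem JC3 (hJZ3 : JZ3_stmt) (hJZ4 : JZ4_stmt) (hJZ5 : JZ5_stmt) (hJZ6 : JZ6_stmt) :
    JC3_stmt := by
  intro V _ _ v L e hL hv hlen hact
  have h5 := hJZ5 V (-4) v L e hL hv hact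
  have h6 := hJZ6 V v L e hL hv (by intro h; rw [h] at hlen; simp at hlen) hact
  have h7 : (8 : ℤ) ∣ Z 2 L e := by
    refine dvd_trans ?_ h6
    have : (8 : ℤ) = 2 ^ 3 := by norm_num
    rw [this]
    exact pow_dvd_pow 2 (by omega)
  have h8 := hJZ3 V (-4) 0 L e
  norm_num at h8
  have h9 := hJZ4 V L e
  rw [h5]
  obtain ⟨a, ha⟩ := h7
  obtain ⟨b, hb⟩ := h8
  obtain ⟨c, hc⟩ := h9
  constructor
  · refine ⟨b + a - c, ?_⟩
    have h1 : Z (-4) L e = Z 0 L e + 4 * b := by linarith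
    have h2 : Z (-2) L e = 8 * c + 2 * Z 0 L e - 8 * a := by linarith
    rw [h1, h2]
    ring
  · refine ⟨4 * c + Z 0 L e - 4 * a, ?_⟩
    linarith

end CT
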