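import Pool.Agent.helper56.CT.Main
import Pool.Agent.helper56.CT.Cor
import Pool.Agent.helper56.CT.JZ3
import Pool.Agent.helper56.CT.D3
import Pool.Agent.helper56.CT.E3
import Pool.Agent.helper11.CT.A3c
import Pool.Agent.helper21.CT.A3e
import Pool.Agent.helper21.CT.D1
import Pool.Agent.helper21.CT.E1
import Pool.Agent.helper21.CT.E2
import Pool.Agent.helper24.CT.B3
import Pool.Agent.helper24.CT.B5
import Pool.Agent.helper31.CT.JZ6
import Pool.Agent.helper32.CT.A1T
import Pool.Agent.helper32.CT.A2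
import Pool.Agent.helper33.CT.A1
import Pool.Agent.helper33.CT.A3d
import Pool.Agent.helper43.CT.B4
import Pool.Agent.helper43.CT.D4
import Pool.Agent.helper46.CT.A3a
import Pool.Agent.helper46.CT.B0
import Pool.Agent.helper46.CT.B2
import Pool.Agent.helper46.CT.D8
import Pool.Agent.helper64.CT.A4
import Pool.Agent.helper64.CT.D9
import Pool.Agent.helper72.CT.D5
import Pool.Agent.helper72.CT.D6
import Pool.Agent.helper72.CT.D7
import Pool.Agent.helper79.CT.E4
import Pool.Agent.helper87.CT.D2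
import Pool.Agent.helper89.CT.A3b
import Pool.Agent.helper89.CT.D0
import Pool.Agent.helper89.CT.JZ1
import Pool.Agent.helper89.CT.JZ2
import Pool.Agent.helper89.CT.JZ5
import Pool.Agent.helper91.CT.JZ4
import Pool.Agent.helper97.CT.B1

/-!
# Project cd: assembly of hand-ins 1 and 2
-/

namespace CT
open Finset

theorem fA4 : A4_stmt := A4 A1 (A2 A1T) A3a A3b A3c A3d (A3e A3a A3b)
theorem fE1 : E1_stmt := E1 A3a A3c
theorem fE2 : E2_stmt := E2 fA4
theorem fE4 : E4_stmt := E4 A3a A3c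
theorem fB2 : B2_stmt := B2 B0
theorem fB4 : B4_stmt := B4 B0 B3
theorem fB5 : B5_stmt := B5 B1 fB2 fB4
theorem fJZ2 : JZ2_stmt := JZ2 JZ1
theorem fJZ4 : JZ4_stmt := JZ4 JZ3
theorem fJC1 : JC1_stmt := JC1 JZ3 JZ5 JZ6
theorem fJC3 : JC3_stmt := JC3 JZ3 fJZ4 JZ5 JZ6
theorem fD3 : D3_stmt := D3 D0 D1 D2
theorem fD4 : D4_stmt := D4 D0 D2 fJC1
theorem fD5 : D5_stmt := D5 fJZ2 fD3 fD4
theorem fD6 : D6_stmt := D6 fJZ2 fD5
theorem fD7 : D7_stmt := D7 fD6
theorem fD9 : D9_stmt := D9 fJZ2 fJC1 fD4 D8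

theorem fin_near {V : Type} [Fintype V] [DecidableEq V] (G : SimpleGraph V)
    (hG : FourRegular G) (hn : 6 ≤ Fintype.card V) (h : HasNearBipartitePart G) (v : V) :
    C2Is (decompletion G v) (ZMod 2) 0 ∧ ¬ C2Is (decompletion G v) (ZMod 2) (-1) := by
  obtain ⟨W, c, hW, hN⟩ := h
  exact near fE1 fE2 E3 fE4 fB5 fJC3 fJZ2 fD7 G hG hn W c hW hN v

theorem fin_near_prime {V : Type} [Fintype V] [DecidableEq V] (G : SimpleGraph V)
    (hG : PrimeAncestor G) (h : HasNearBipartitePart G ∨ ThreeFromBipartite G ∨ ContainsK33 G)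
    (v : V) (h2 : C2Is (decompletion G v) (ZMod 2) (-1)) :
    Nonempty (G ≃g (⊤ : SimpleGraph (Fin 5))) := by
  rcases Nat.lt_or_ge (Fintype.card V) 6 with h5 | h6
  · exact complete_of_five G hG.regular (by have := hG.five_le; omega)
  · exfalso
    have h3 : HasNearBipartitePart G := by
      rcases h with h | h | h
      · exact h
      · exact near_of_three G h6 h
      · exact near_of_K33 G hG.regular h
    exact (fin_near G hG.regular h6 h3 v).2 h2

theorem fin_twins {V : Type} [Fintype V] [DecidableEq V] (G : SimpleGraph V)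
    (hG : FourRegular G) (hn : 7 ≤ Fintype.card V) (h : HasTwins G) (v : V) :
    C2Is (decompletion G v) (ZMod 2) 0 ∧ ¬ C2Is (decompletion G v) (ZMod 2) (-1) := by
  obtain ⟨u, u', huu, hN⟩ := h
  exact twins fE1 fE2 E3 fE4 fB5 fJC3 fJZ2 fD9 G hG hn u u' huu hN v

theorem fin_twins_prime {V : Type} [Fintype V] [DecidableEq V] (G : SimpleGraph V)
    (hG : PrimeAncestor G) (h : HasTwins G) (v : V) :
    ¬ C2Is (decompletion G v) (ZMod 2) (-1) := by
  have h5 := hG.five_le
  have h6 := no_prime_six G hG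
  rcases Nat.lt_or_ge (Fintype.card V) 7 with h7 | h7
  · exfalso
    obtain ⟨f⟩ := complete_of_five G hG.regular (by omega)
    obtain ⟨u, u', huu, hN⟩ := h
    have h8 : G.Adj u u' := by
      rw [← f.map_adj_iff, SimpleGraph.top_adj]
      exact fun h => huu (f.injective h)
    exact G.loopless.irrefl _ ((hN u').1 h8)
  · exact (fin_twins G hG.regular h7 h v).2

end CT
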