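import Mathlib

/-!
# MP_45d809: definitions of project ct

A 4-regular multigraph on the vertex set `V` is an involution `e` of the set of darts `V × Fin 4`
(`e d` is the other half of the edge of the half-edge `d`).  Joining the darts `x` and `y` means
smoothing: the strand of `x` and the strand of `y` are connected to one strand and `x`, `y` become
inactive (fixed points of `e`); if they are the two ends of the same strand a closed loop is split
off.
-/

namespace CT

open Finset

section join
variable {D : Type*} [DecidableEq D]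

/-- Join the darts `x` and `y` of the matching `e`. -/
def join (e : D → D) (x y : D) : D → D := fun z =>
  if z = x ∨ z = y then z
  else if e z = x then e y
  else if e z = y then e x
  else e z

/-- The number (0 or 1) of closed loops split off by joining `x` and `y`. -/
def lp (e : D → D) (x y : D) : ℕ := if e x = y then 1 else 0

/-- `e` is an involution whose non-fixed points are exactly the darts of `A`. -/
def Act (A : Finset D) (e : D → D) : Prop :=
  (∀ d, e (e d) = d) ∧ ∀ d, e d ≠ d ↔ d ∈ A

def join3 (e : D → D) (a b c d f g : D) : D → D := join (join (join e a b) c d) f g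

def lp3 (e : D → D) (a b c d f g : D) : ℕ :=
  lp e a b + lp (join e a b) c d + lp (join (join e a b) c d) f g

end join

/-- The three pairings of `{0,1,2,3}`: `(a,b,c,d)` stands for `{a,b},{c,d}`. -/
def pr : Fin 3 → Fin 4 × Fin 4 × Fin 4 × Fin 4
  | 0 => (0, 1, 2, 3)
  | 1 => (0, 2, 1, 3)
  | 2 => (0, 3, 1, 2)

section Z
variable {V : Type*} [DecidableEq V]

/-- Smoothing of the vertex `u` along the pairing `t`. -/
def sm (e : V × Fin 4 → V × Fin 4) (u : V) (t : Fin 3) : V × Fin 4 → V × Fin 4 :=
  join (join e (u, (pr t).1) (u, (pr t).2.1)) (u, (pr t).2.2.1) (u, (pr t).2.2.2)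

/-- The number of closed loops split off by this smoothing. -/
def ls (e : V × Fin 4 → V × Fin 4) (u : V) (t : Fin 3) : ℕ :=
  lp e (u, (pr t).1) (u, (pr t).2.1) +
    lp (join e (u, (pr t).1) (u, (pr t).2.1)) (u, (pr t).2.2.1) (u, (pr t).2.2.2)

/-- The transition state sum: sum over all pairings at the vertices of `L` of `x` to the number of
closed circuits. -/
def Z (x : ℤ) : List V → (V × Fin 4 → V × Fin 4) → ℤ
  | [], _ => 1
  | u :: L, e => ∑ t : Fin 3, x ^ ls e u t * Z x L (sm e u t)

/-- One term of the six-leg relation. -/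
def T3 (x : ℤ) (L : List V) (e : V × Fin 4 → V × Fin 4) (a b c d f g : V × Fin 4) : ℤ :=
  x ^ lp3 e a b c d f g * Z x L (join3 e a b c d f g)

/-- The darts at the vertices of `S`. -/
def dts (S : Finset V) : Finset (V × Fin 4) := S ×ˢ univ

/-- The darts whose strand has both ends in `S`. -/
def DU (S : Finset V) (e : V × Fin 4 → V × Fin 4) : Finset (V × Fin 4) :=
  (dts S).filter fun d => (e d).1 ∈ S

/-- The strands of `T` connect the vertices of `S`. -/
def Conn (S : Finset V) (e : V × Fin 4 → V × Fin 4) (T : Finset (V × Fin 4)) : Prop :=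
  ∀ φ : V → Bool, (∀ d ∈ T, φ d.1 = φ (e d).1) → ∀ u ∈ S, ∀ w ∈ S, φ u = φ w

/-- The set `T` of darts (with both ends of each strand) is a spanning tree of `S`. -/
def Tr (S : Finset V) (e : V × Fin 4 → V × Fin 4) (T : Finset (V × Fin 4)) : Prop :=
  T.card + 2 = 2 * S.card ∧ Conn S e T

open Classical in
/-- The number of ordered pairs of complementary spanning trees of the graph on `S` whose edges
are the strands with both ends in `S`. -/
noncomputable def TP (S : Finset V) (e : V × Fin 4 → V × Fin 4) : ℕ :=
  ((DU S e).powerset.filter fun T =>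
    (∀ d ∈ T, e d ∈ T) ∧ Tr S e T ∧ Tr S e (DU S e \ T)).card

end Z

section LT
variable {E N : Type*} [Fintype E] [Fintype N] [DecidableEq E] [DecidableEq N]

/-- `T` is a spanning tree of the graph with incidence matrix `inc` over `ZMod 2`: no nonzero
element of the cycle space is supported in `T`, and a function constant along the edges of `T` is
constant. -/
def LT (inc : E → N → ZMod 2) (T : Finset E) : Prop :=
  (∀ y : E → ZMod 2, (∀ a, a ∉ T → y a = 0) → (∀ n, ∑ a, inc a n * y a = 0) → y = 0) ∧
  (∀ φ : N → ZMod 2, (∀ a ∈ T, ∑ n, inc a n * φ n = 0) → ∀ m n, φ m = φ n)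

open Classical in
/-- The graph polynomial over `ZMod 2`. -/
noncomputable def PsiLT (inc : E → N → ZMod 2) (α : E → ZMod 2) : ZMod 2 :=
  ∑ T ∈ (univ : Finset (Finset E)).filter (fun T => LT inc T), ∏ a ∈ Tᶜ, α a

/-- Each edge has exactly two ends. -/
def TwoEnds (inc : E → N → ZMod 2) : Prop :=
  ∀ a, ∃ m n, m ≠ n ∧ ∀ k, inc a k = if k = m ∨ k = n then 1 else 0

end LT

/-! ### The statement -/

section statement
variable {V : Type} [Fintype V] [DecidableEq V]

/-- `T` is (the edge set of) a spanning tree of `H`. -/
def SpTree (H : SimpleGraph V) (T : Finset H.edgeSet) : Prop :=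
  (SimpleGraph.fromEdgeSet ((fun a : H.edgeSet => (a : Sym2 V)) '' (T : Set H.edgeSet))).IsTree

end statement

end CT
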