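import Pool.Agent.helper56.CT.Problem

namespace CT
open Finset

theorem zmod2_cases (a : ZMod 2) : a = 0 ∨ a = 1 := by
  revert a; decide

open Classical in
theorem graphPoly_eq_PsiLT (hE1 : E1_stmt) {V : Type} [Fintype V] [DecidableEq V] [Nonempty V]
    (H : SimpleGraph V) (α : H.edgeSet → ZMod 2) : graphPoly H α = PsiLT (incH H) α := by
  unfold graphPoly PsiLT
  apply Finset.sum_congr
  · ext T
    simp only [mem_filter, mem_univ, true_and]
    exact hE1 V H T
  · intro T _
    rfl

open Classical in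
theorem numZeros_add (hE1 : E1_stmt) {V : Type} [Fintype V] [DecidableEq V] [Nonempty V]
    (H : SimpleGraph V) :
    numZeros H (ZMod 2) +
      ((univ : Finset (H.edgeSet → ZMod 2)).filter fun α => PsiLT (incH H) α = 1).card =
      2 ^ Fintype.card H.edgeSet := by
  have h1 : numZeros H (ZMod 2) =
      ((univ : Finset (H.edgeSet → ZMod 2)).filter fun α => PsiLT (incH H) α = 0).card := by
    unfold numZeros
    rw [Nat.card_eq_fintype_card, Fintype.card_subtype]
    congr 1
    ext α
    simp only [mem_filter, mem_univ, true_and]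
    rw [graphPoly_eq_PsiLT hE1]
  have h2 : ((univ : Finset (H.edgeSet → ZMod 2)).filter fun α => PsiLT (incH H) α = 1) =
      ((univ : Finset (H.edgeSet → ZMod 2)).filter fun α => ¬ PsiLT (incH H) α = 0) := by
    ext α
    simp only [mem_filter, mem_univ, true_and]
    rcases zmod2_cases (PsiLT (incH H) α) with h | h <;> simp [h]
  rw [h1, h2, Finset.card_filter_add_card_filter_not]
  simp [Finset.card_univ, ZMod.card]

theorem arith1 {X N0 tp z4 z2 : ℤ} (h1 : 8 ∣ X + N0) (h2 : 8 ∣ N0 - tp) (h3 : 3 * tp = z2)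
    (h4 : 32 ∣ z4 - 4 * z2) (h5 : 2 ∣ z2) : 32 ∣ 4 * X - z4 := by
  omega

open Classical in
theorem zeros_mod8 (hE1 : E1_stmt) {V : Type} [Fintype V] [DecidableEq V] [Nonempty V]
    (H : SimpleGraph V) (hcard : 3 ≤ Nat.card H.edgeSet) :
    (8 : ℤ) ∣ (numZeros H (ZMod 2) : ℤ) +
      (((univ : Finset (H.edgeSet → ZMod 2)).filter fun α => PsiLT (incH H) α = 1).card : ℤ) := by
  have h := numZeros_add hE1 H
  rw [Nat.card_eq_fintype_card] at hcard
  have h8 : 8 ∣ 2 ^ Fintype.card H.edgeSet := by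
    have : 8 = 2 ^ 3 := by norm_num
    rw [this]
    exact pow_dvd_pow 2 hcard
  rw [← h] at h8
  exact_mod_cast h8

/-- The same with arbitrary instances. -/
theorem zeros_inst (hE1 : E1_stmt) {V : Type} [j1 : Fintype V] [j2 : DecidableEq V] [Nonempty V]
    (H : SimpleGraph V) (hcard : 3 ≤ Nat.card H.edgeSet)
    {i1 : Fintype H.edgeSet} {i2 : DecidableEq H.edgeSet} {i3 : Fintype (H.edgeSet → ZMod 2)}
    {i4 : Fintype V} {i5 : DecidableEq V}
    {i6 : DecidablePred fun α : H.edgeSet → ZMod 2 =>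
      @PsiLT H.edgeSet V i1 i4 i2 (@incH V i5 H) α = 1} :
    (8 : ℤ) ∣ (numZeros H (ZMod 2) : ℤ) +
      ((@Finset.filter (H.edgeSet → ZMod 2)
        (fun α => @PsiLT H.edgeSet V i1 i4 i2 (@incH V i5 H) α = 1) i6
        (@Finset.univ _ i3)).card : ℤ) := by
  have h := zeros_mod8 hE1 H hcard
  have e4 : i4 = j1 := Subsingleton.elim _ _
  subst e4
  have e5 : i5 = j2 := Subsingleton.elim _ _
  subst e5
  have e1 : i1 = @SimpleGraph.fintypeEdgeSet V H _ (fun _ _ => Classical.propDecidable _) :=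
    Subsingleton.elim _ _
  subst e1
  have e2 : i2 = fun a b => Subtype.instDecidableEq a b := Subsingleton.elim _ _
  subst e2
  have e3 : i3 = @Pi.instFintype H.edgeSet (fun _ => ZMod 2)
      (fun a b => Subtype.instDecidableEq a b)
      (@SimpleGraph.fintypeEdgeSet V H _ (fun _ _ => Classical.propDecidable _))
      (fun _ => ZMod.fintype 2) := Subsingleton.elim _ _
  subst e3
  have e6 : i6 = fun α => ZMod.decidableEq 2 _ _ := Subsingleton.elim _ _
  subst e6
  exact h

/-- The main congruences. -/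
theorem core (hE1 : E1_stmt) (hE2 : E2_stmt) (hE4 : E4_stmt) (hB5 : B5_stmt) (hJC3 : JC3_stmt)
    {V : Type} [Fintype V] [DecidableEq V] (G : SimpleGraph V) [DecidableRel G.Adj] (v : V)
    (hG : G.IsRegularOfDegree 4) (hn : 6 ≤ Fintype.card V)
    (hcard : 3 ≤ Nat.card (decompletion G v).edgeSet)
    (e : V × Fin 4 → V × Fin 4) (he : Act (dts (univ : Finset V)) e)
    (h1 : ∀ u i, G.Adj u (e (u, i)).1) (h2 : ∀ u w, G.Adj u w → ∃ i, (e (u, i)).1 = w)
    (h3 : ∀ u i j, (e (u, i)).1 = (e (u, j)).1 → i = j)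
    (L : List V) (hL : L.Nodup) (hLs : L.toFinset = univ.erase v) :
    (32 : ℤ) ∣ 4 * (numZeros (decompletion G v) (ZMod 2) : ℤ) - Z (-4) (L ++ [v]) e := by
  classical
  have hv : v ∉ L := by
    intro h
    have : v ∈ L.toFinset := List.mem_toFinset.2 h
    rw [hLs] at this
    simp at this
  have hins : insert v L.toFinset = univ := by rw [hLs]; exact Finset.insert_erase (mem_univ v)
  have hlen : L.length + 1 = Fintype.card V := by
    have := List.toFinset_card_of_nodup hL
    rw [← this, hLs, Finset.card_erase_of_mem (mem_univ v), Finset.card_univ]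
    omega
  have hact : Act (dts (insert v L.toFinset)) e := by rw [hins]; exact he
  obtain ⟨c1, c2⟩ := hJC3 V v L e hL hv (by omega) hact
  have c3 := hB5 V v L e hL (by intro h; rw [h] at hlen; simp at hlen; omega) hv hact
  rw [hLs] at c3
  have c4 := hE4 V G v e (by omega) he h1 h2 h3
  have c5 := hE2 V G v hG hn
  rw [c4] at c5
  have hne : Nonempty ({v}ᶜ : Set V) := by
    obtain ⟨w, hw⟩ := Fintype.exists_ne_of_one_lt_card (show 1 < Fintype.card V by omega) v
    exact ⟨⟨w, by simpa using hw⟩⟩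
  exact arith1 (zeros_inst hE1 (decompletion G v) hcard) c5 c3 c1 c2

theorem card_edges (V : Type) [Fintype V] [DecidableEq V] (G : SimpleGraph V) [DecidableRel G.Adj]
    (v : V) (hG : G.IsRegularOfDegree 4) (hn : 6 ≤ Fintype.card V) :
    3 ≤ Nat.card (decompletion G v).edgeSet := by
  classical
  obtain ⟨w, hw⟩ := Fintype.exists_ne_of_one_lt_card (show 1 < Fintype.card V by omega) v
  set H := decompletion G v with hH
  set w' : ({v}ᶜ : Set V) := ⟨w, by simpa using hw⟩ with hw'
  have h1 : 3 ≤ H.degree w' := by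
    have h2 : ((G.neighborFinset w).erase v).card ≤ (H.neighborFinset w').card := by
      have h3 : ((G.neighborFinset w).erase v) ⊆ (H.neighborFinset w').image Subtype.val := by
        intro x hx
        rw [mem_erase, SimpleGraph.mem_neighborFinset] at hx
        rw [mem_image]
        exact ⟨⟨x, by simpa using hx.1⟩, by
          rw [SimpleGraph.mem_neighborFinset]
          exact hx.2, rfl⟩
      exact (card_le_card h3).trans card_image_le
    have h4 : (G.neighborFinset w).card = 4 := by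
      rw [SimpleGraph.card_neighborFinset_eq_degree]; exact hG w
    have h5 := Finset.pred_card_le_card_erase (s := G.neighborFinset w) (a := v)
    rw [SimpleGraph.card_neighborFinset_eq_degree] at h2
    omega
  have h2 : H.degree w' ≤ H.edgeFinset.card := by
    rw [← SimpleGraph.card_incidenceFinset_eq_degree]
    exact card_le_card (SimpleGraph.incidenceFinset_subset _ _)
  have h3 : Nat.card H.edgeSet = H.edgeFinset.card := by
    rw [Nat.card_eq_fintype_card, SimpleGraph.edgeFinset_card]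
  omega

theorem c2_of_dvd {V : Type} [Fintype V] [DecidableEq V] (H : SimpleGraph V)
    (h : (32 : ℤ) ∣ 4 * (numZeros H (ZMod 2) : ℤ)) :
    C2Is H (ZMod 2) 0 ∧ ¬ C2Is H (ZMod 2) (-1) := by
  have h8 : 8 ∣ numZeros H (ZMod 2) := by omega
  obtain ⟨k, hk⟩ := h8
  have h2 : Nat.card (ZMod 2) = 2 := by simp
  refine ⟨⟨2 * k, ?_, ?_⟩, ?_⟩
  · rw [hk, h2]; ring
  · rw [h2]
    rw [Int.modEq_zero_iff_dvd]
    push_cast
    exact ⟨k, rfl⟩
  · rintro ⟨m, hm, hm2⟩
    rw [h2] at hm hm2
    rw [hk] at hm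
    have h3 : m = 2 * k := by omega
    rw [h3] at hm2
    rw [Int.modEq_iff_dvd] at hm2
    push_cast at hm2
    omega

/-- `32 ∣ Z (-4)` for one order of all vertices suffices. -/
theorem c2_of_Z (hE1 : E1_stmt) (hE2 : E2_stmt) (hE4 : E4_stmt) (hB5 : B5_stmt) (hJC3 : JC3_stmt)
    (hJZ2 : JZ2_stmt)
    {V : Type} [Fintype V] [DecidableEq V] (G : SimpleGraph V) [DecidableRel G.Adj] (v : V)
    (hG : G.IsRegularOfDegree 4) (hn : 6 ≤ Fintype.card V)
    (e : V × Fin 4 → V × Fin 4) (he : Act (dts (univ : Finset V)) e)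
    (h1 : ∀ u i, G.Adj u (e (u, i)).1) (h2 : ∀ u w, G.Adj u w → ∃ i, (e (u, i)).1 = w)
    (h3 : ∀ u i j, (e (u, i)).1 = (e (u, j)).1 → i = j)
    (L : List V) (hL : L.Nodup) (hLs : L.toFinset = univ) (hZ : 32 ∣ Z (-4) L e) :
    C2Is (decompletion G v) (ZMod 2) 0 ∧ ¬ C2Is (decompletion G v) (ZMod 2) (-1) := by
  apply c2_of_dvd
  have h4 : (univ.erase v).toList.Nodup := Finset.nodup_toList _
  have h5 : (univ.erase v).toList.toFinset = univ.erase v := Finset.toList_toFinset _
  have h6 := core hE1 hE2 hE4 hB5 hJC3 G v hG hn (card_edges V G v hG hn) e he h1 h2 h3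
    (univ.erase v).toList h4 h5
  have h7 : L.Perm ((univ.erase v).toList ++ [v]) := by
    apply List.perm_of_nodup_nodup_toFinset_eq hL
    · rw [List.nodup_append]
      refine ⟨h4, by simp, ?_⟩
      intro a ha b hb
      rw [Finset.mem_toList, mem_erase] at ha
      simp only [List.mem_singleton] at hb
      rw [hb]; exact ha.1
    · rw [hLs, List.toFinset_append, h5]
      ext x
      simp only [mem_univ, mem_union, mem_erase, List.mem_toFinset, List.mem_singleton, and_true,
        true_iff]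
      exact ne_or_eq x v
  have h8 := hJZ2 V (-4) L ((univ.erase v).toList ++ [v]) e h7 hL he.1 (by
    intro u _ i
    rw [he.2]
    simp [dts])
  rw [← h8] at h6
  have h9 := dvd_add h6 hZ
  simpa using h9

/-- Near-bipartite part of the vertices. -/
theorem near (hE1 : E1_stmt) (hE2 : E2_stmt) (hE3 : E3_stmt) (hE4 : E4_stmt) (hB5 : B5_stmt)
    (hJC3 : JC3_stmt) (hJZ2 : JZ2_stmt) (hD7 : D7_stmt)
    {V : Type} [Fintype V] [DecidableEq V] (G : SimpleGraph V)
    (hG : ∀ u, Nat.card {w // G.Adj u w} = 4) (hn : 6 ≤ Fintype.card V)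
    (W : Finset V) (c : V → Bool) (hW : 5 ≤ W.card) (hN : NearBipartite G W c) (v : V) :
    C2Is (decompletion G v) (ZMod 2) 0 ∧ ¬ C2Is (decompletion G v) (ZMod 2) (-1) := by
  classical
  have hG' : G.IsRegularOfDegree 4 := by
    intro u
    rw [← hG u, Nat.card_eq_fintype_card, ← SimpleGraph.card_neighborSet_eq_degree]
    rfl
  obtain ⟨e, he, h1, h2, h3⟩ := hE3 V G hG'
  have hL : ((univ \ W).toList ++ W.toList).Nodup := by
    rw [List.nodup_append]
    refine ⟨Finset.nodup_toList _, Finset.nodup_toList _, ?_⟩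
    intro a ha b hb hab
    rw [Finset.mem_toList] at ha hb
    rw [mem_sdiff] at ha
    rw [hab] at ha
    exact ha.2 hb
  have hLs : ((univ \ W).toList ++ W.toList).toFinset = univ := by
    rw [List.toFinset_append, Finset.toList_toFinset, Finset.toList_toFinset]
    ext x
    simp
  refine c2_of_Z hE1 hE2 hE4 hB5 hJC3 hJZ2 G v hG' hn e he h1 h2 h3 _ hL hLs ?_
  refine hD7 V _ _ e c hL (by rw [Finset.length_toList]; exact hW) (by rw [hLs]; exact he) ?_
  unfold NearBipartite at hN
  refine le_trans ?_ hN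
  refine Finset.card_le_card_of_injOn (fun d => (d.1, (e d).1)) ?_ ?_
  · intro d hd
    rw [Finset.mem_coe, Finset.mem_filter] at hd ⊢
    simp only [dts, Finset.mem_product, Finset.mem_univ,
      and_true, List.mem_toFinset, Finset.mem_toList] at hd
    exact ⟨mem_univ _, h1 d.1 d.2, hd.1, hd.2⟩
  · intro d _ d' _ hdd
    simp only [Prod.mk.injEq] at hdd
    obtain ⟨u, i⟩ := d
    obtain ⟨u', i'⟩ := d'
    simp only at hdd
    obtain ⟨rfl, h5⟩ := hdd
    rw [h3 u i i' h5]

/-- Twins. -/
theorem twins (hE1 : E1_stmt) (hE2 : E2_stmt) (hE3 : E3_stmt) (hE4 : E4_stmt) (hB5 : B5_stmt)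
    (hJC3 : JC3_stmt) (hJZ2 : JZ2_stmt) (hD9 : D9_stmt)
    {V : Type} [Fintype V] [DecidableEq V] (G : SimpleGraph V)
    (hG : ∀ u, Nat.card {w // G.Adj u w} = 4) (hn : 7 ≤ Fintype.card V)
    (u u' : V) (huu : u ≠ u') (hN : ∀ w, G.Adj u w ↔ G.Adj u' w) (v : V) :
    C2Is (decompletion G v) (ZMod 2) 0 ∧ ¬ C2Is (decompletion G v) (ZMod 2) (-1) := by
  classical
  have hG' : G.IsRegularOfDegree 4 := by
    intro u
    rw [← hG u, Nat.card_eq_fintype_card, ← SimpleGraph.card_neighborSet_eq_degree]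
    rfl
  obtain ⟨e, he, h1, h2, h3⟩ := hE3 V G hG'
  set p : Fin 4 → V := fun i => (e (u, i)).1 with hp
  have hpinj : Function.Injective p := fun i j hij => h3 u i j hij
  have hpu : ∀ i, p i ≠ u := fun i h => by
    have := h1 u i
    rw [show (e (u, i)).1 = u from h] at this
    exact G.loopless.irrefl u this
  have hpu' : ∀ i, p i ≠ u' := fun i h => by
    have := (hN _).1 (h1 u i)
    rw [show (e (u, i)).1 = u' from h] at this
    exact G.loopless.irrefl u' this
  set R := (univ \ {u, u', p 0, p 1, p 2, p 3} : Finset V) with hR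
  have hRn : R.toList ≠ [] := by
    intro h
    rw [Finset.toList_eq_nil] at h
    have h5 : (univ : Finset V) ⊆ {u, u', p 0, p 1, p 2, p 3} := by
      rw [← Finset.sdiff_eq_empty_iff_subset]
      exact h
    have h6 := Finset.card_le_card h5
    have h7 : ({u, u', p 0, p 1, p 2, p 3} : Finset V).card ≤ 6 := Finset.card_le_six
    rw [Finset.card_univ] at h6
    omega
  have hL : (u :: u' :: p 0 :: p 1 :: p 2 :: p 3 :: R.toList).Nodup := by
    have h01 : p 0 ≠ p 1 := fun h => by simpa using hpinj h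
    have h02 : p 0 ≠ p 2 := fun h => by simpa using hpinj h
    have h03 : p 0 ≠ p 3 := fun h => by simpa using hpinj h
    have h12 : p 1 ≠ p 2 := fun h => by simpa using hpinj h
    have h13 : p 1 ≠ p 3 := fun h => by simpa using hpinj h
    have h23 : p 2 ≠ p 3 := fun h => by simpa using hpinj h
    have hnod := Finset.nodup_toList R
    have m0 : ∀ x ∈ ({u, u', p 0, p 1, p 2, p 3} : Finset V), x ∉ R.toList := by
      intro x hx hx2
      rw [Finset.mem_toList, hR, mem_sdiff] at hx2
      exact hx2.2 hx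
    have mu := m0 u (by simp)
    have mu' := m0 u' (by simp)
    have mp0 := m0 (p 0) (by simp)
    have mp1 := m0 (p 1) (by simp)
    have mp2 := m0 (p 2) (by simp)
    have mp3 := m0 (p 3) (by simp)
    simp only [List.nodup_cons, List.mem_cons, not_or]
    exact ⟨⟨huu, (hpu 0).symm, (hpu 1).symm, (hpu 2).symm, (hpu 3).symm, mu⟩,
      ⟨(hpu' 0).symm, (hpu' 1).symm, (hpu' 2).symm, (hpu' 3).symm, mu'⟩,
      ⟨h01, h02, h03, mp0⟩, ⟨h12, h13, mp1⟩, ⟨h23, mp2⟩, mp3, hnod⟩
  have hLs : (u :: u' :: p 0 :: p 1 :: p 2 :: p 3 :: R.toList).toFinset = univ := by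
    ext x
    simp only [List.mem_toFinset, List.mem_cons, Finset.mem_toList, hR, mem_sdiff, mem_univ,
      true_and, mem_insert, mem_singleton, iff_true]
    tauto
  refine c2_of_Z hE1 hE2 hE4 hB5 hJC3 hJZ2 G v hG' (by omega) e he h1 h2 h3 _ hL hLs ?_
  refine hD9 V u u' R.toList p e hL hRn (by rw [hLs]; exact he) (fun k => ⟨k, rfl⟩) ?_
  intro k
  exact h2 u' (p k) ((hN _).1 (h1 u k))

end CT
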