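import Pool.Agent.helper56.CT.J1

/-!
# Project cd (MP_45d809_mp): part J, D, B: state sums

Everything is about involutions `e` of the darts `V × Fin 4` and the recursively defined state sum
`Z x L e` (see Defs.lean).  Basic lemmas on `join`, `lp` (PROVED): J1.lean
(`join_invol`, `join_act`, `join_symm`, `lp_symm`, `join_comm`, `lp_comm`, `join_chain`).
-/

namespace CT
open Finset

/-! ## Part J -/

/-- JZ1: the order of the first two vertices does not matter.
Sketch: unfold both sides, exchange the two sums over `Fin 3`; it suffices that for all `t t'`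
`sm (sm e u t) w t' = sm (sm e w t') u t` and
`ls e u t + ls (sm e u t) w t' = ls e w t' + ls (sm e w t') u t`.
Both follow by moving joins past each other with `join_comm`, `lp_comm` (four times), the
activity hypotheses of the intermediate matchings come from `join_act` (an involution with
`e x ≠ x` for the eight darts involved; take for `A` the set of all non-fixed points, or prove
`join e x y z ≠ z ↔ e z ≠ z` for `z ≠ x, y` directly). -/
def JZ1_stmt : Prop :=
  ∀ (V : Type) [DecidableEq V] (x : ℤ) (u w : V) (L : List V) (e : V × Fin 4 → V × Fin 4),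
    (∀ d, e (e d) = d) → u ≠ w → (∀ i, e (u, i) ≠ (u, i)) → (∀ i, e (w, i) ≠ (w, i)) →
    Z x (u :: w :: L) e = Z x (w :: u :: L) e

/-- JZ2: `Z` is invariant under permutations of the list.
Sketch: induction on the permutation (`List.Perm` recursion); cons: the smoothed `sm e u t` is an
involution and its darts at the other vertices stay active; swap: JZ1. -/
def JZ2_stmt : Prop :=
  ∀ (V : Type) [DecidableEq V] (x : ℤ) (L L' : List V) (e : V × Fin 4 → V × Fin 4),
    L.Perm L' → L.Nodup → (∀ d, e (e d) = d) → (∀ u ∈ L, ∀ i, e (u, i) ≠ (u, i)) →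
    Z x L e = Z x L' e

/-- JZ3: congruence. Induction on `L` (`x ^ k - y ^ k` is divisible by `x - y`). -/
def JZ3_stmt : Prop :=
  ∀ (V : Type) [DecidableEq V] (x y : ℤ) (L : List V) (e : V × Fin 4 → V × Fin 4),
    (x - y) ∣ Z x L e - Z y L e

/-- JZ4: second order congruence.
Sketch: induction on `L`; for the term `t` with `k = ls e u t ≤ 2` and `e' = sm e u t`:
k = 0: induction hypothesis; k = 1: `2 Z(2) - 2 Z(-2)` is divisible by 8 as `4 ∣ Z(2) - Z(-2)`
(JZ3), and the last term is 0; k = 2: `4 (Z(2) + Z(-2))` and `Z(2) ≡ Z(-2) mod 2`. -/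
def JZ4_stmt : Prop :=
  ∀ (V : Type) [DecidableEq V] (L : List V) (e : V × Fin 4 → V × Fin 4),
    8 ∣ Z 2 L e + Z (-2) L e - 2 * Z 0 L e

/-- JZ5: expanding the last vertex.
Sketch: induction on `L`, the hypotheses are inherited by `sm e u t` (`join_act`); for `L = []`:
the four darts at `v` are matched by `e` among themselves; for each of the three possible
matchings two of the pairings give one loop and one gives two loops. -/
def JZ5_stmt : Prop :=
  ∀ (V : Type) [DecidableEq V] (x : ℤ) (v : V) (L : List V) (e : V × Fin 4 → V × Fin 4),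
    L.Nodup → v ∉ L → Act (dts (insert v L.toFinset)) e →
    Z x (L ++ [v]) e = (x ^ 2 + 2 * x) * Z x L e

/-- JZ6: divisibility at `x = 2` (Eulerian orientations).
Sketch: let `O L e` be the number of `o : V × Fin 4 → Bool` with `o (e d) = !o d` for all darts
`d` at `insert v L`, `o d = false` for all other darts, and exactly two `true` darts at each
`u ∈ L`. Then (1) `4 * Z 2 L e = 2 ^ L.length * O L e`: induction on `L`; base: `O [] e = 4`;
step: for `x ≠ y` active, #{o for e : o x ≠ o y} = 2 ^ (lp e x y) * #{o for join e x y}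
(restriction; if `e x = y` the value `o x` is free, otherwise `o x = !o (e x)`, and
`o (e x) ≠ o (e y)` is the new condition), apply it twice and use that `o` is balanced at `u`
(two `true`) iff exactly two of the three pairings `t` have `o a ≠ o b ∧ o c ≠ o d`
(and none otherwise): `2 * O (u :: L) e = ∑ t, 2 ^ ls e u t * O L (sm e u t)`.
(2) `O L e` is even: negate `o` on the darts of `insert v L`. Hence `Z 2 L e` is
`2 ^ (L.length - 1) * (O / 2)`. (You may choose other definitions.) -/
def JZ6_stmt : Prop :=
  ∀ (V : Type) [Fintype V] [DecidableEq V] (v : V) (L : List V) (e : V × Fin 4 → V × Fin 4),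
    L.Nodup → v ∉ L → L ≠ [] → Act (dts (insert v L.toFinset)) e →
    (2 : ℤ) ^ (L.length - 1) ∣ Z 2 L e

/-- JC1: divisibility by 16 for at least three vertices.
Sketch: `L = L' ++ [v]` (last element), by JZ5 `Z (-4) L e = 8 * Z (-4) L' e`; by JZ3
`Z (-4) L' e ≡ Z 2 L' e mod 6`, and `Z 2 L' e` is even by JZ6 (`L'.length ≥ 2`). -/
def JC1_stmt : Prop :=
  ∀ (V : Type) [Fintype V] [DecidableEq V] (L : List V) (e : V × Fin 4 → V × Fin 4),
    L.Nodup → 3 ≤ L.length → Act (dts L.toFinset) e → 16 ∣ Z (-4) L e

/-- JC3: comparison of `x = -4` and `x = -2`.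
Sketch: put `K x = Z x L e`. JZ5: left `= 8 K(-4)`; JZ3: `K(-4) ≡ K(0) mod 4`; JZ4 and JZ6
(`8 ∣ K(2)`): `K(-2) ≡ 2 K(0) mod 8`. So `8 K(-4) ≡ 8 K(0) ≡ 4 K(-2) mod 32`, and `K(-2)` is
even. -/
def JC3_stmt : Prop :=
  ∀ (V : Type) [Fintype V] [DecidableEq V] (v : V) (L : List V) (e : V × Fin 4 → V × Fin 4),
    L.Nodup → v ∉ L → 4 ≤ L.length → Act (dts (insert v L.toFinset)) e →
    32 ∣ Z (-4) (L ++ [v]) e - 4 * Z (-2) L e ∧ 2 ∣ Z (-2) L e

/-! ## Part D: relations at `x = -4` -/

/-- D0: symmetries of `T3` (for six distinct active darts).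
Sketch: `join_symm`, `lp_symm`, `join_comm`, `lp_comm` (with `join_invol`, activity). -/
def D0_stmt : Prop :=
  ∀ (V : Type) [DecidableEq V] (x : ℤ) (L : List V) (e : V × Fin 4 → V × Fin 4)
    (a b c d f g : V × Fin 4),
    (∀ z, e (e z) = z) → [a, b, c, d, f, g].Nodup →
    (∀ z ∈ [a, b, c, d, f, g], e z ≠ z) →
    T3 x L e a b c d f g = T3 x L e c d a b f g ∧
    T3 x L e a b c d f g = T3 x L e a b f g c d ∧
    T3 x L e a b c d f g = T3 x L e b a c d f g ∧
    T3 x L e a b c d f g = T3 x L e a b d c f g ∧
    T3 x L e a b c d f g = T3 x L e a b c d g f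

/-- D1: the 15-term relation at `x = -4`.
Sketch: induction on `L` (for all `e`). Step `u :: L`: by definition
`Z x (u :: L) (join3 e ..) = ∑ t, x ^ ls .. * Z x L (sm (join3 e ..) u t)`, and the smoothing at
`u` commutes with the three joins (`join_comm`, `lp_comm`; the darts at `u` are distinct from the
six legs), so `T3 x (u :: L) e a b c d f g = ∑ t, x ^ ls e u t * T3 x L (sm e u t) a b c d f g`;
apply the induction hypothesis to each `sm e u t` (its active set is that of `L` and the legs).
Base `L = []`: `Z = 1` and `e` matches the six legs among themselves. For four legs matched among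
themselves by an involution `e'`: the sum over the three pairings of `x ^ loops` is `x ^ 2 + 2 x`
(case distinction: partner of the first leg). For each partner `p` of `a` the three terms give
`x ^ [e a = p] * (x ^ 2 + 2 x)`, and exactly one of the five `p` has `e a = p`, total
`(x + 4)(x ^ 2 + 2 x) = 0`. -/
def D1_stmt : Prop :=
  ∀ (V : Type) [DecidableEq V] (L : List V) (e : V × Fin 4 → V × Fin 4)
    (a b c d f g : V × Fin 4),
    L.Nodup → [a, b, c, d, f, g].Nodup → (∀ z ∈ [a, b, c, d, f, g], z.1 ∉ L) →
    Act (dts L.toFinset ∪ {a, b, c, d, f, g}) e →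
    T3 (-4) L e a b c d f g + T3 (-4) L e a b c f d g + T3 (-4) L e a b c g d f +
    (T3 (-4) L e a c b d f g + T3 (-4) L e a c b f d g + T3 (-4) L e a c b g d f) +
    (T3 (-4) L e a d b c f g + T3 (-4) L e a d b f c g + T3 (-4) L e a d b g c f) +
    (T3 (-4) L e a f b c d g + T3 (-4) L e a f b d c g + T3 (-4) L e a f b g c d) +
    (T3 (-4) L e a g b c d f + T3 (-4) L e a g b d c f + T3 (-4) L e a g b f c d) = 0

/-- D2: expansion at two adjacent vertices: `e (u, i) = (w, j)`.
Sketch: `Z x (u :: w :: L) e = ∑ t, ∑ t', x ^ (..) * Z x L (sm (sm e u t) w t')`. The pairing `t`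
pairs `(u, i)` with one of the other darts `y` of `u` and the other two with each other, the same
for `t'` and `(w, j)`, `z`. With `p = (u, i)`, `q = (w, j)`: by `join_comm` the joins can be
ordered as `(p,y), (q,z), (y',y''), (z',z'')`, and `join_chain` replaces the first two by
`(p, q), (y, z)` with the same loops except the loop `p q` itself (`lp e p y = 0`). So the term is
`T3 x L (join e p q) y z y' y'' z' z''`. The nine pairs `(t, t')` correspond to the nine pairs
`(y, z)` (case distinction over `i`, `j` and the orders: 24 * 24 cases are avoided by proving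
first: for distinct `i, i1, i2, i3` the sum over `t` of `F t` where `F` depends only on the
unordered pairing ...; e.g. prove a lemma
`∑ t, x ^ ls e u t * G (sm e u t) = ∑ over the 3 partners of i, x ^ (lp + lp) * G (join (join ..))`
by `fin_cases` on `i`, using `join_symm`, `join_comm`). -/
def D2_stmt : Prop :=
  ∀ (V : Type) [DecidableEq V] (x : ℤ) (L : List V) (e : V × Fin 4 → V × Fin 4) (u w : V)
    (i i1 i2 i3 j j1 j2 j3 : Fin 4),
    (u :: w :: L).Nodup → [i, i1, i2, i3].Nodup → [j, j1, j2, j3].Nodup →
    Act (dts (u :: w :: L).toFinset) e → e (u, i) = (w, j) →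
    Z x (u :: w :: L) e =
      T3 x L (join e (u, i) (w, j)) (u, i1) (w, j1) (u, i2) (u, i3) (w, j2) (w, j3) +
      T3 x L (join e (u, i) (w, j)) (u, i1) (w, j2) (u, i2) (u, i3) (w, j1) (w, j3) +
      T3 x L (join e (u, i) (w, j)) (u, i1) (w, j3) (u, i2) (u, i3) (w, j1) (w, j2) +
      (T3 x L (join e (u, i) (w, j)) (u, i2) (w, j1) (u, i1) (u, i3) (w, j2) (w, j3) +
      T3 x L (join e (u, i) (w, j)) (u, i2) (w, j2) (u, i1) (u, i3) (w, j1) (w, j3) +
      T3 x L (join e (u, i) (w, j)) (u, i2) (w, j3) (u, i1) (u, i3) (w, j1) (w, j2)) +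
      (T3 x L (join e (u, i) (w, j)) (u, i3) (w, j1) (u, i1) (u, i2) (w, j2) (w, j3) +
      T3 x L (join e (u, i) (w, j)) (u, i3) (w, j2) (u, i1) (u, i2) (w, j1) (w, j3) +
      T3 x L (join e (u, i) (w, j)) (u, i3) (w, j3) (u, i1) (u, i2) (w, j1) (w, j2))

/-- D3: the six-term relation at `x = -4`. From D1 (legs `(u,i1),(u,i2),(u,i3),(w,j1),(w,j2),
(w,j3)`, matching `join e (u,i) (w,j)`), D2 and the symmetries D0: nine of the fifteen terms are
those of D2, the others the six below. -/
def D3_stmt : Prop :=
  ∀ (V : Type) [DecidableEq V] (L : List V) (e : V × Fin 4 → V × Fin 4) (u w : V)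
    (i i1 i2 i3 j j1 j2 j3 : Fin 4),
    (u :: w :: L).Nodup → [i, i1, i2, i3].Nodup → [j, j1, j2, j3].Nodup →
    Act (dts (u :: w :: L).toFinset) e → e (u, i) = (w, j) →
    Z (-4) (u :: w :: L) e =
      -(T3 (-4) L (join e (u, i) (w, j)) (u, i1) (w, j1) (u, i2) (w, j2) (u, i3) (w, j3) +
      T3 (-4) L (join e (u, i) (w, j)) (u, i1) (w, j1) (u, i2) (w, j3) (u, i3) (w, j2) +
      T3 (-4) L (join e (u, i) (w, j)) (u, i1) (w, j2) (u, i2) (w, j1) (u, i3) (w, j3) +
      T3 (-4) L (join e (u, i) (w, j)) (u, i1) (w, j2) (u, i2) (w, j3) (u, i3) (w, j1) +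
      T3 (-4) L (join e (u, i) (w, j)) (u, i1) (w, j3) (u, i2) (w, j1) (u, i3) (w, j2) +
      T3 (-4) L (join e (u, i) (w, j)) (u, i1) (w, j3) (u, i2) (w, j2) (u, i3) (w, j1))

/-- D4: a double strand between `u` and `w`.
Sketch: D2 with `x = -4`; put `e0 = join e (u,i) (w,j)`, so `e0 (u,i1) = (w,j1)`; by `join_act`
and JC1 every `Z (-4) L (join3 e0 ..)` is divisible by 16, so the terms with at least one loop
vanish mod 32 and it suffices that the other terms are equal in pairs. With `p = (u,i1)`,
`q = (w,j1)`, `y2, y3 = (u,i2), (u,i3)`, `z2, z3`: by `join_chain` (joining `(p,y)`, `(q,z)` is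
joining `y z` after closing `p q`): the terms `p z2 | y2 y3 | q z3`, `p z3 | y2 y3 | q z2`,
`y2 q | p y3 | z2 z3`, `y3 q | p y2 | z2 z3` all equal `x ^ l * Z(join (join (join e0 p q) y2 y3)
z2 z3)`; `y2 z2 | p y3 | q z3` equals `y3 z3 | p y2 | q z2`; `y2 z3 | p y3 | q z2` equals
`y3 z2 | p y2 | q z3`; the term `p q | y2 y3 | z2 z3` has a loop (`lp = 1`). -/
def D4_stmt : Prop :=
  ∀ (V : Type) [Fintype V] [DecidableEq V] (L : List V) (e : V × Fin 4 → V × Fin 4) (u w : V)
    (i i1 j j1 : Fin 4),
    (u :: w :: L).Nodup → i ≠ i1 → j ≠ j1 → 3 ≤ L.length →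
    Act (dts (u :: w :: L).toFinset) e → e (u, i) = (w, j) → e (u, i1) = (w, j1) →
    32 ∣ Z (-4) (u :: w :: L) e

/-- D5: the bipartite class: every strand from a vertex of `A` goes to `B`, `|B| = |A| + 1`.
Sketch: induction on `A.length ≥ 2`. Take `u` the first element of `A`. If `A.length = 2`: the four
strands of `u` go to the three vertices of `B`, so two of them go to the same `w ∈ B`; move `u`, `w`
to the front (JZ2) and apply D4. If `A.length ≥ 3`: let `e (u, 0) = (w, j)`, `w ∈ B`; move `u`, `w`
to the front and apply D3: each of the six matchings `join3 (join e (u,0) (w,j)) ..` sends the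
darts of `A.erase u` to darts of `B.erase w` (a strand entering `w` continues through a dart of `u`
to `B`, possibly several times, it cannot end in `u`, `w`, since these darts are fixed points), so
by induction each term is divisible by 32. Convenient lemma: if an involution `e` sends darts of
`A` into `B`, `y` is a dart with `y.1 = u ∈ A`, `z` a dart with `z.1 = w ∈ B`, both active, then
`join e y z` sends every dart of `A` except `y` into `B`-darts or, if it goes to ... : the property
'for every active dart `d` with `d.1 ∈ A`, `(join e y z d).1 ∈ B`' is inherited (prove it for one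
join, with the hypothesis 'for every `d` with `d.1 ∈ A` and `e d ≠ d`, `(e d).1 ∈ B`', `A`, `B`
disjoint); apply it four times, also to the closing join `(u,0), (w,j)`; in the end the active
darts are those of `A.erase u ∪ B.erase w`. -/
def D5_stmt : Prop :=
  ∀ (V : Type) [Fintype V] [DecidableEq V] (A B : List V) (e : V × Fin 4 → V × Fin 4),
    (A ++ B).Nodup → Act (dts (A ++ B).toFinset) e → (∀ u ∈ A, ∀ i, (e (u, i)).1 ∈ B) →
    B.length = A.length + 1 → 2 ≤ A.length → 32 ∣ Z (-4) (A ++ B) e

/-- D6: at most 6 bad darts.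
Sketch: `A`, `B` = the vertices of `L` of colour `true`, `false`; `bA`, `bB` = numbers of darts of
`A`, `B` with the other end of the same colour. These are even (e is an involution without fixed
points on them), `4|A| - bA = 4|B| - bB` (the other darts are exchanged by `e`), and
`bA + bB ≤ 6`: so `(bA, bB)` is `(0,0)`, `(2,2)`, `(0,4)` or `(4,0)`. Case `(0,4)`: `|B| = |A|+1`,
D5 (with JZ2). `(4,0)` is symmetric. Cases `(0,0)`, `(2,2)`: `|A| = |B| ≥ 3`; let `a ∈ A` be the
vertex of a bad dart (any vertex of `A` in the case `(0,0)`); move `a` to the front; for every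
pairing `t` the matching `sm e a t` sends all darts of `A.erase a` to darts of `B`: apply D5 to
`A.erase a`, `B` to get `32 ∣` each term. -/
def D6_stmt : Prop :=
  ∀ (V : Type) [Fintype V] [DecidableEq V] (L : List V) (e : V × Fin 4 → V × Fin 4)
    (c : V → Bool),
    L.Nodup → 5 ≤ L.length → Act (dts L.toFinset) e →
    ((dts L.toFinset).filter fun d => c d.1 = c (e d).1).card ≤ 6 → 32 ∣ Z (-4) L e

/-- D7: the same for a part `W` of the vertices. Induction on `R`: smoothing at `u ∉ W` does not
increase the number of defect darts (a dart of `W` whose strand went to `u` was a defect dart; the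
others do not change). For `R = []` it is D6. -/
def D7_stmt : Prop :=
  ∀ (V : Type) [Fintype V] [DecidableEq V] (R W : List V) (e : V × Fin 4 → V × Fin 4)
    (c : V → Bool),
    (R ++ W).Nodup → 5 ≤ W.length → Act (dts (R ++ W).toFinset) e →
    ((dts W.toFinset).filter fun d => (e d).1 ∉ W ∨ c d.1 = c (e d).1).card ≤ 6 →
    32 ∣ Z (-4) (R ++ W) e

/-- D8: invariance under renaming the darts at each vertex.
Sketch: induction on `L`; a permutation of `Fin 4` permutes the three pairings: for `π : Perm
(Fin 4)` there is a bijection `t ↦ t'` of `Fin 3` such that the pairing `t'` is the image of `t`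
(up to order), then `sm` of the conjugate matching is the conjugate of `sm` (joins are natural
under a bijection of the darts, `join_symm`, `join_comm`). -/
def D8_stmt : Prop :=
  ∀ (V : Type) [DecidableEq V] (x : ℤ) (L : List V) (e : V × Fin 4 → V × Fin 4)
    (π : V → Equiv.Perm (Fin 4)),
    L.Nodup → (∀ d, e (e d) = d) → (∀ u ∈ L, ∀ i, e (u, i) ≠ (u, i)) →
    Z x L (fun d => ((e (d.1, (π d.1).symm d.2)).1,
      π (e (d.1, (π d.1).symm d.2)).1 (e (d.1, (π d.1).symm d.2)).2)) = Z x L e

/-- D9: two vertices with the same four neighbours.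
Sketch: expand `u` and `u'`: nine terms, no loops. A pairing at `u` induces a pairing of the four
vertices `p 0, .., p 3`, also a pairing at `u'`. If they agree, the term is a matching with double
strands between two pairs of the `p k`; D4 (after JZ2; the remaining list has length at least 3)
shows divisibility by 32. If they differ, the terms `(s, s')` and `(s', s)` are equal (exchange at
each vertex `p k` the two darts leading to `u` and `u'`: D8), and each is divisible by 16 by JC1.
-/
def D9_stmt : Prop :=
  ∀ (V : Type) [Fintype V] [DecidableEq V] (u u' : V) (R : List V) (p : Fin 4 → V)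
    (e : V × Fin 4 → V × Fin 4),
    (u :: u' :: p 0 :: p 1 :: p 2 :: p 3 :: R).Nodup → R ≠ [] →
    Act (dts (u :: u' :: p 0 :: p 1 :: p 2 :: p 3 :: R).toFinset) e →
    (∀ k, ∃ i, (e (u, i)).1 = p k) → (∀ k, ∃ i, (e (u', i)).1 = p k) →
    32 ∣ Z (-4) (u :: u' :: p 0 :: p 1 :: p 2 :: p 3 :: R) e

/-! ## Part B: pairs of complementary spanning trees -/

/-- B0: in a graph on `S` the number of components is at least the number of vertices minus the
number of edges: there are at least `2 ^ (|S| - |T|/2)` functions on `S` constant along `T`.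
Sketch: the additive map `(S → ZMod 2) → (T → ZMod 2)`, `φ ↦ (φ d.1 - φ (e d).1)_d`, has image
inside the functions invariant under `e` (as `φ d.1 - φ (e d).1 = φ (e d).1 - φ d.1`), there are
`2 ^ (|T|/2)` of these (`e` has no fixed points on `T`); so the kernel has at least
`2 ^ (|S| - |T|/2)` elements. Formulation with functions vanishing outside `S`. -/
def B0_stmt : Prop :=
  ∀ (V : Type) [Fintype V] [DecidableEq V] (S : Finset V) (e : V × Fin 4 → V × Fin 4)
    (T : Finset (V × Fin 4)) (k : ℕ),
    (∀ d, e (e d) = d) → (∀ d ∈ T, e d ∈ T ∧ e d ≠ d ∧ d.1 ∈ S) → T.card + 2 * k ≤ 2 * S.card →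
    2 ^ k ≤ ((univ : Finset (V → Bool)).filter fun φ =>
      (∀ v, v ∉ S → φ v = false) ∧ ∀ d ∈ T, φ d.1 = φ (e d).1).card

/-- B1: a loop at `u` makes the state sum at `x = -2` zero.
Sketch: for general `x`: put `p = (u,i)`, `q = (u,j)`, `e p = q` and `y, z` the other two darts;
the pairing `p q | y z` gives `x ^ (1 + lp (join e p q) y z) Z(join (join e p q) y z)`, the other
two give by `join_chain` `x ^ (lp (join e p q) y z) Z(the same)`: total factor `x + 2`. -/
def B1_stmt : Prop :=
  ∀ (V : Type) [DecidableEq V] (L : List V) (e : V × Fin 4 → V × Fin 4) (u : V) (i j : Fin 4),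
    (∀ d, e (e d) = d) → (∀ k, e (u, k) ≠ (u, k)) → i ≠ j → e (u, i) = (u, j) →
    Z (-2) (u :: L) e = 0

/-- B2: no spanning tree pair if there is a loop and at least two vertices.
Sketch: the loop `{(u,i), (u,j)}` lies in `T` or in the complement; if it lies in the tree `T`,
remove it: the rest is still connecting `S` but has `|T| - 2 = 2|S| - 4` darts, and B0 with
`k = 2` gives at least 4 functions vanishing outside `S` and constant along `T`; but connectedness
allows only 2. -/
def B2_stmt : Prop :=
  ∀ (V : Type) [Fintype V] [DecidableEq V] (S : Finset V) (e : V × Fin 4 → V × Fin 4) (u : V)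
    (i j : Fin 4),
    (∀ d, e (e d) = d) → (∀ d, d.1 ∈ S → e d ≠ d) → u ∈ S → 2 ≤ S.card → i ≠ j →
    e (u, i) = (u, j) → TP S e = 0

/-- B3: the combinatorial core. `Q` = set of components with at least three elements, `q k` = the
component of the `k`-th end: the number of `l` such that all functions on `Q` which agree on the
three `q k`, `k ≠ l`, are constant, equals the number of pairings `t` such that all functions with
`f (q a) = f (q b)`, `f (q c) = f (q d)` are constant.
Sketch: if `q` is not surjective, an indicator function of a point outside the range shows that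
both numbers are 0. If `|Q| = 4` and `q` is bijective: both are 0 (indicator of `q l`, indicator of
`{q a, q b}`). If `|Q| = 3` and `q` surjective: transport to `Q = Fin 3` and `decide` (81
functions), or: exactly one coincidence `q k = q l`, both numbers are 2. -/
def B3_stmt : Prop :=
  ∀ (Q : Type) [Fintype Q] [DecidableEq Q] (q : Fin 4 → Q), 3 ≤ Fintype.card Q →
    ((univ : Finset (Fin 4)).filter fun l =>
      ∀ f : Q → Bool, (∀ k k', k ≠ l → k' ≠ l → f (q k) = f (q k')) → ∀ r s, f r = f s).card =
    ((univ : Finset (Fin 3)).filter fun t =>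
      ∀ f : Q → Bool, f (q (pr t).1) = f (q (pr t).2.1) →
        f (q (pr t).2.2.1) = f (q (pr t).2.2.2) → ∀ r s, f r = f s).card

/-- B4: the recursion for tree pairs at a vertex `u` without loops.
Sketch: `S' = S.erase u`, `x_i = (u, i)`, `y_i = e x_i`, `I = {i : y_i.1 ∈ S'}` (the others have
`y_i.1 = v`). `Out` = darts `d` with `d.1, (e d).1 ∈ S'`. Then `DU S e = Out ∪ {x_i, y_i : i ∈ I}`
and `DU S' (sm e u t) = Out ∪ {y_a, y_b : {a,b} a pair of t inside I}` (`sm e u t y_a = y_b`, and
`sm e u t = e` on `Out`; no loops are created, `ls e u t = 0`, because there are no loops at `u`: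
`e x_i ≠ x_j`). Fix `F ⊆ Out`, `e`-invariant, `F' = Out \ F`, and compare the contributions.
For a set `A ⊆ I`: `F ∪ {x_i,y_i : i ∈ A}` is a tree on `S` iff `|F| + 2|A| = 2|S| - 2`, `A ≠ ∅`
and every function on `S'` constant along `F` and equal at all `y_i.1`, `i ∈ A`, is constant on
`S'`. `F` with a set of new strands is a tree on `S'` iff `|F| + 2 #new = 2|S| - 4` and every
function constant along `F` and equal at the two ends of the new strands is constant on `S'`.
|I| = 4: if `|F| = 2|S|-4` (one `A`-element): left: [F tree on S'] * #{l : F' + star without l},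
right: [F tree] * #{t : F' + two strands}; equal by B3 for `Q` = components of `F'` on `S'`
(at least three by B0 with `k = 3`, `|F'| = 2|S|-8`); the same with `F`, `F'` exchanged; if
`|F| = |F'| = 2|S|-6`: left: sum over the six 2-subsets `A` = {a,b} of [F + y_a y_b][F' + y_c y_d],
right: the same. |I| = 3: left: for `|F| = 2|S|-4`, `|F'| = 2|S|-6`: [F tree] * sum over `i ∈ I`
[F' + strand of the other two], right the same (the pairing {i, v} | rest). |I| = 2: left
2 [F tree][F' tree] for `|F| = |F'| = 2|S|-4`, right: two pairings give this, for the third one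
(both `v`-darts paired) the number of darts is wrong: `|DU S' (sm e u t)| ≠ 2 (2|S'| - 2)`.
|I| ≤ 1: left 0 (a class without a dart at `u` does not connect `u`, `|S| ≥ 2`), right 0 (the
number of darts is wrong, count the darts at `S` and `v`: `|DU S e| = 4|S| - 4 + 2 z`, `z` = number
of strands from `v` to `v`; a tree pair needs `z = 0`, and `|I| ≤ 1` forces `z ≥ 1` after the
smoothing).  It may be convenient to treat the count of darts first: if `|DU S e| ≠ 4|S| - 4`
both sides are 0. -/
def B4_stmt : Prop :=
  ∀ (V : Type) [Fintype V] [DecidableEq V] (S : Finset V) (v u : V)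
    (e : V × Fin 4 → V × Fin 4),
    v ∉ S → u ∈ S → 2 ≤ S.card → Act (dts (insert v S)) e →
    (∀ i j, e (u, i) ≠ (u, j)) →
    TP S e = ∑ t : Fin 3, TP (S.erase u) (sm e u t)

/-- B5: `3 TP = Z(-2)`.
Sketch: induction on `L`. Length 1, `L = [u]`: if `e` matches two darts of `u`, both sides are 0
(B1; `DU` is not empty, so the empty set and its complement cannot both have 0 darts); otherwise
all four darts go to `v`, `DU = ∅`, `TP = 1`, and the state sum is 3 (no loops). Step `u :: L`: if
there is a loop at `u`: B1, B2. Otherwise `ls e u t = 0` for all `t` and B4. -/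
def B5_stmt : Prop :=
  ∀ (V : Type) [Fintype V] [DecidableEq V] (v : V) (L : List V) (e : V × Fin 4 → V × Fin 4),
    L.Nodup → L ≠ [] → v ∉ L → Act (dts (insert v L.toFinset)) e →
    3 * (TP L.toFinset e : ℤ) = Z (-2) L e

end CT
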