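import Pool.Agent.helper56.CT.Defs

/-!
# Project cd (MP_45d809_mp): part A (point count mod 8, linear algebra over `ZMod 2`) and part E
(simple graphs)
-/

namespace CT
open Finset

/-! ## Part A -/

/-- The network with conductances given by `x` has only the trivial solution: `y` = currents,
`φ` = potentials, Ohm's law on every edge, at every vertex `n` either Kirchhoff's law
(`g n = none`) or the condition `φ m = 0` (`g n = some m`). -/
def NSn {E N : Type} [Fintype E] [Fintype N] (inc : E → N → ZMod 2) (g : N → Option N)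
    (x : E → ZMod 2) : Prop :=
  ∀ (y : E → ZMod 2) (φ : N → ZMod 2), (∀ a, x a * y a + ∑ n, inc a n * φ n = 0) →
    (∀ n, g n = none → ∑ a, inc a n * y a = 0) → (∀ n m, g n = some m → φ m = 0) →
    y = 0 ∧ φ = 0

/-- The same for the edge set `T` (currents only on `T`, potential constant along `T`). -/
def KTn {E N : Type} [Fintype E] [Fintype N] (inc : E → N → ZMod 2) (g : N → Option N)
    (T : Finset E) : Prop :=
  (∀ y : E → ZMod 2, (∀ a, a ∉ T → y a = 0) →
    (∀ n, g n = none → ∑ a, inc a n * y a = 0) → y = 0) ∧
  (∀ φ : N → ZMod 2, (∀ a ∈ T, ∑ n, inc a n * φ n = 0) → (∀ n m, g n = some m → φ m = 0) →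
    φ = 0)

open Classical in
/-- The polynomial `∑_T ∏_{a ∉ T} x a`, sum over the `T` with `KTn inc g T`. -/
noncomputable def hT {E N : Type} [Fintype E] [Fintype N] [DecidableEq E]
    (inc : E → N → ZMod 2) (g : N → Option N) (x : E → ZMod 2) : ZMod 2 :=
  ∑ T ∈ (univ : Finset (Finset E)).filter (fun T => KTn inc g T), ∏ a ∈ Tᶜ, x a

open Classical in
/-- A1: determinant expansion.
Sketch: let `M x` be the square matrix over `ZMod 2` indexed by `E ⊕ N` with rows
`inl a`: `(x a at inl a, inc a n at inr n)`; `inr n` with `g n = none`: `(inc a n at inl a, 0)`;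
`inr n` with `g n = some m`: `(0, 1 at inr m)`. `NSn inc g x` says that `M x` has trivial kernel,
i.e. `det (M x) ≠ 0`, i.e. `det (M x) = 1` (`Matrix.exists_mulVec_eq_zero_iff`). The rows `inl a`
are `x a • (unit vector) + (0, inc a)`: by multilinearity
(`MultilinearMap.map_add_univ` / `Finset.sum` over the set `S` of rows where the first summand is
chosen; or induction on the edges with `Matrix.det_updateRow_add`, `det_updateRow_smul`)
`det (M x) = ∑ S, (∏ a ∈ S, x a) * det (M_S)`, where in `M_S` the rows `a ∈ S` are unit vectors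
and the rows `a ∉ S` are `(0, inc a)`. With `T = Sᶜ`: the kernel of `M_S` is trivial iff
`KTn inc g T`. -/
def A1_stmt : Prop :=
  ∀ (E N : Type) [Fintype E] [Fintype N] [DecidableEq E] [DecidableEq N]
    (inc : E → N → ZMod 2) (g : N → Option N) (x : E → ZMod 2),
    (if NSn inc g x then (1 : ZMod 2) else 0) = hT inc g x

/-- A1T: transposition. `g'` is the inverse of the partial injection `g`.
Sketch: the matrix of `g'` is the transpose of the matrix of `g` up to a permutation:
solutions are trivial iff the square matrix with columns: currents and the potentials `φ m`, `m`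
not in the range of `g`, rows: edges and the vertices `n` with `g n = none`, is nonsingular, and
for `g'` one gets the transposed matrix. In terms of the matrix `M` of A1: `M_g = P * M'` ...;
alternatively: trivial kernel of a square matrix is equivalent to trivial kernel of its transpose;
a vector in the kernel of `(M_g)ᵀ` is `(y, ψ)` with
`x a * y a + ∑_{n : g n = none} inc a n * ψ n = 0` and, for every `m`,
`∑ a, inc a m * y a + ∑_{n : g n = some m} ψ n = 0`; put `φ n = ψ n` for `g n = none`, `φ n = 0`
for `g n ≠ none`: this is a solution for `g'` (at `m` outside the range of `g`, i.e. `g' m = none`,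
Kirchhoff's law; `g' m = some n` forces `φ n = 0`), and conversely (`ψ n` for `g n = some m` is
determined by the equation at `m`). -/
def A1T_stmt : Prop :=
  ∀ (E N : Type) [Fintype E] [Fintype N] [DecidableEq E] [DecidableEq N]
    (inc : E → N → ZMod 2) (g g' : N → Option N) (x : E → ZMod 2),
    (∀ n m, g n = some m ↔ g' m = some n) → (NSn inc g x ↔ NSn inc g' x)

/-- ground at `a` -/
def g1 {N : Type} [DecidableEq N] (a : N) : N → Option N := fun n => if n = a then some a else none
/-- equations at `a`, `b` replaced by `φ a = 0`, `φ b = 0` -/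
def g2 {N : Type} [DecidableEq N] (a b : N) : N → Option N := fun n =>
  if n = a then some a else if n = b then some b else none
/-- equations at `a`, `b` replaced by `φ a = 0`, `φ c = 0` -/
def g3 {N : Type} [DecidableEq N] (a b c : N) : N → Option N := fun n =>
  if n = a then some a else if n = b then some c else none

/-- A2: the network identity.
Sketch: let `(y0, φ0) ≠ 0` be a solution for `g1 a`: `φ0 a = 0`, Kirchhoff off `a`, hence
everywhere (the rows of `inc` have sum 0, so `∑ n, ∑ a, inc a n * y a = 0`).
(⇒) `φ0 b = 1`, `φ0 c = 1` (otherwise it is a nontrivial solution for `g2 a b`, `g2 a c`). Let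
`(y, φ)` be a solution for `g3 a b c`; its current `t` into `b` equals the one into `a`.
Reciprocity: `∑ e, y e * (inc φ0) e = ∑ e, y e * x e * y0 e = ∑ e, y0 e * (inc φ) e`; the left side
is `φ0 a * t + φ0 b * t = t`, the right side 0. So `t = 0`, `(y, φ)` is a solution for `g2 a c`,
hence zero. (⇐) by A1T the hypothesis is also true for `g3 a c b` (roles of `b` and `c`
exchanged). Let `(y, φ)` be a solution for `g2 a b`. If `φ c = 0` it is one for `g3 a b c`,
zero. If `φ c = 1`: `φ0 c = 1` (else `(y0, φ0)` is a nontrivial solution for `g3 a b c`), so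
`(y, φ) + (y0, φ0)` is a solution for `g3 a b c`, zero, so `φ0 b = φ b = 0` and `(y0, φ0)` is a
nontrivial solution for `g3 a c b`: contradiction. The same for `g2 a c`. -/
def A2_stmt : Prop :=
  ∀ (E N : Type) [Fintype E] [Fintype N] [DecidableEq E] [DecidableEq N]
    (inc : E → N → ZMod 2) (x : E → ZMod 2) (a b c : N),
    TwoEnds inc → a ≠ b → a ≠ c → b ≠ c → ¬ NSn inc (g1 a) x →
    ((NSn inc (g2 a b) x ∧ NSn inc (g2 a c) x) ↔ NSn inc (g3 a b c) x)

/-- The graph with an additional vertex `none` joined to `a 0, a 1, a 2`. -/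
def incF {E N : Type} [DecidableEq N] (inc : E → N → ZMod 2) (a : Fin 3 → N) :
    E ⊕ Fin 3 → Option N → ZMod 2
  | Sum.inl e, some n => inc e n
  | Sum.inl _, none => 0
  | Sum.inr i, some n => if n = a i then 1 else 0
  | Sum.inr _, none => 1

/-- A3a: spanning trees meeting the star in at most one edge.
Sketch: (1) the indicator function of `none` is constant along `T` and not constant. (2) currents:
Kirchhoff's law at `none` forces `y (inr i) = 0`; potentials: `φ none = φ (a i)`. `LT` versus
`KTn (g1 _)`: Kirchhoff's law at all vertices but one implies it everywhere (`TwoEnds`), and a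
function constant along `T` is constant iff those vanishing at `n` are zero (subtract
`φ n`). -/
def A3a_stmt : Prop :=
  ∀ (E N : Type) [Fintype E] [Fintype N] [DecidableEq E] [DecidableEq N]
    (inc : E → N → ZMod 2) (a : Fin 3 → N) (T : Finset E) (i : Fin 3),
    TwoEnds inc →
    ¬ LT (incF inc a) (T.map Function.Embedding.inl) ∧
    (LT (incF inc a) (T.map Function.Embedding.inl ∪ {Sum.inr i}) ↔ LT inc T) ∧
    (∀ n, LT inc T ↔ KTn inc (g1 n) T)

/-- A3b: spanning trees with exactly two star edges.
Sketch: Kirchhoff at `none`: `y (inr i) = y (inr j)`, so the equations say that `y` on `T` is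
conserved off `a i`, `a j` and `y (inr i)` is the current at `a i`: if `y` on `T` is 0 then so is
`y (inr i)`, and a `y` on `T` conserved off `a i`, `a j` has equal currents at the two (`TwoEnds`),
so it extends. Potentials: normalise `φ none = 0`. -/
def A3b_stmt : Prop :=
  ∀ (E N : Type) [Fintype E] [Fintype N] [DecidableEq E] [DecidableEq N]
    (inc : E → N → ZMod 2) (a : Fin 3 → N) (T : Finset E) (i j : Fin 3),
    TwoEnds inc → Function.Injective a → i ≠ j →
    (LT (incF inc a) (T.map Function.Embedding.inl ∪ {Sum.inr i, Sum.inr j}) ↔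
      KTn inc (g2 (a i) (a j)) T)

/-- A3c: cardinalities. Sketch: `KTn inc g T` says that the square matrix of A1 with the rows of
`T` is nonsingular; directly: the map `y ↦ (∑ a, inc a n * y a)_{n : g n = none}` from
`T → ZMod 2` is injective, so `|T| ≤ |{n : g n = none}| = |N| - |range|`, and
`φ ↦ (∑ n, inc a n * φ n)_{a ∈ T}` from the functions vanishing on the range of `g` is injective,
so `|N| - |range| ≤ |T|` (compare cardinalities of finite sets `2 ^ k`). -/
def A3c_stmt : Prop :=
  ∀ (E N : Type) [Fintype E] [Fintype N] [DecidableEq E] [DecidableEq N]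
    (inc : E → N → ZMod 2) (T : Finset E) (a b : N),
    (KTn inc (g1 a) T → T.card + 1 = Fintype.card N) ∧
    (a ≠ b → KTn inc (g2 a b) T → T.card + 2 = Fintype.card N)

/-- A3d: for `a, b, c` distinct, the number of pairs among `ab`, `ac`, `bc` for which `T` is a
forest with two components separating the pair is 0 or 2; and `g3 a b c` means: separating `a` from
`b` and `a` from `c`.
Sketch: suppose `KTn (g2 a b) T`; the space `Φ` of functions constant along `T` has dimension 2
(vanishing at `a`, `b` implies 0, and it contains the constants; there is `ψ ∈ Φ` with `ψ a = 0`,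
`ψ b = 1`: by counting, `|T| = |N| - 2` (A3c) gives at least 4 elements (kernel of
`(N → ZMod 2) → (T → ZMod 2)`), so exactly 4, they are determined by the values at `a`, `b`).
If `ψ c = 1`: vanishing at `a`, `c` implies vanishing at `b`, 0; if `ψ c = 0` then `ψ` vanishes at
`a`, `c` and is not 0, but vanishing at `b`, `c` implies 0. Currents: `y` on `T` conserved off
`a`, `c` with current `t` at both: `0 = ∑ e, y e * (inc ψ) e = t * (ψ a + ψ c)`, so if
`ψ c = 1`: `t = 0`, and then `y` is conserved everywhere, so 0 by the hypothesis; the same for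
`b`, `c` if `ψ c = 0`. So exactly one of `ac`, `bc` holds. By symmetry the number of valid pairs is
0 or 2. Second part: (⇐) is immediate: the first half of `KTn (g3 a b c)` is that of `g2 a b`, the
second half that of `g2 a c`. (⇒): from the two halves, as in A3c, `|T| = |N| - 2`; the second half
of `g3 a b c` gives: functions in `Φ` are determined by the values at `a` and `c`, `|Φ| ≥ 4`, so
there is `ψ ∈ Φ` with `ψ a = 0`, `ψ c = 1`. If `ψ b = 0`: consider the linear map from `T`-currents
to currents at the vertices `≠ a, b`: it is injective and `|T| = |N| - 2`, so bijective: there is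
`y` on `T` with current 1 at `c` and 0 at the vertices `≠ a, b, c`; then
`0 = ∑ e, y e * (inc ψ) e = ∑ n, ψ n * (current of y at n) = ψ c * 1 + ψ a * _ + ψ b * _ = 1`,
contradiction. So `ψ b = 1`: functions of `Φ` vanishing at `a`, `b`: they are `0` or `ψ` or ...,
(the element of `Φ` with values `(0, s)` at `a, c` is `s ψ`), vanishing at `b` forces `s = 0`:
second half of `g2 a b`. First half of `g2 a c`: `y` conserved off `a`, `c`, current `t` at
both; `0 = ∑ e, y e (inc ψ) e = t * ψ c = t`; so `y` is conserved everywhere, 0. -/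
def A3d_stmt : Prop :=
  ∀ (E N : Type) [Fintype E] [Fintype N] [DecidableEq E] [DecidableEq N]
    (inc : E → N → ZMod 2) (T : Finset E) (a b c : N),
    TwoEnds inc → a ≠ b → a ≠ c → b ≠ c →
    (KTn inc (g2 a b) T → (KTn inc (g2 a c) T ∧ ¬ KTn inc (g2 b c) T) ∨
      (¬ KTn inc (g2 a c) T ∧ KTn inc (g2 b c) T)) ∧
    (KTn inc (g3 a b c) T ↔ KTn inc (g2 a b) T ∧ KTn inc (g2 a c) T)

/-- A3e: trees with all three star edges are irrelevant for the identity, but this splitting of
`PsiLT` is needed: sum over `T = T' ∪ A`, `A ⊆ Fin 3`. With A3a, A3b: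
`Ψ(x, α) = h0 * (α 1 * α 2 + α 0 * α 2 + α 0 * α 1) + h01 * α 2 + h02 * α 1 + h12 * α 0 + h`.
Sketch: `univ : Finset (Finset (E ⊕ Fin 3))` is in bijection with pairs; the complement of
`T' ∪ A` is `T'ᶜ ∪ Aᶜ`. -/
def A3e_stmt : Prop :=
  ∀ (E N : Type) [Fintype E] [Fintype N] [DecidableEq E] [DecidableEq N]
    (inc : E → N → ZMod 2) (a : Fin 3 → N), TwoEnds inc → Function.Injective a →
    ∃ h : (E → ZMod 2) → ZMod 2, ∀ (x : E → ZMod 2) (α : Fin 3 → ZMod 2),
      PsiLT (incF inc a) (Sum.elim x α) =
        PsiLT inc x * (α 1 * α 2 + α 0 * α 2 + α 0 * α 1) +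
        hT inc (g2 (a 0) (a 1)) x * α 2 + hT inc (g2 (a 0) (a 2)) x * α 1 +
        hT inc (g2 (a 1) (a 2)) x * α 0 + h x

open Classical in
/-- A4: the number of points where the graph polynomial is 1 is congruent mod 8 to the number of
ordered pairs of complementary spanning trees.
Sketch: write `F0 x = PsiLT inc x`, `F01 x, F02 x, F12 x` for the three sums in A3e. By A1 (and
A3a) `F0 x = [NSn (g1 _) x]`, `Fij x = [NSn (g2 (a i) (a j)) x]`; by A3d
`F01 + F02 + F12 = 0` (each `T` occurs in an even number of the three sums). For fixed `x`, the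
number of `α ∈ (ZMod 2)^3` with `Ψ(x, α) = 1` is 4 unless `F0 = F01 = F02 = F12 = 0`, when it is
0 or 8 (`decide` over the values of `F0, F01, F02, h`). So `N_0 ≡ 4 * #good mod 8`, where
`#good = #{x : not all zero}`; mod 2: `#good = ∑ x, (1 - (1 + F0)(1 + F01)(1 + F02))`
(in `ZMod 2`). By A2 and A1: `(1 + F0) F01 F02 = (1 + F0) f`, `f x = [NSn (g3 (a 0) (a 1) (a 2)) x]`
`= ∑ T with KTn (g3 ..)`. So `#good ≡ ∑ x, (F0 + F01 + F02 + F0 F01 + F0 F02 + (1 + F0) f)`.
For a set `S`: `∑ x, ∏ e ∈ S, x e = [S = univ]` in `ZMod 2`. Hence (A3c; `|N| ≥ 3`) the single sums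
vanish (`T = ∅` would be needed) and the products give
`#good ≡ P01 + P02 + n0`, `P_ij = #{T : LT inc T ∧ KTn (g2 (a i) (a j)) Tᶜ}`,
`n0 = #{T : LT inc T ∧ KTn (g3 (a 0) (a 1) (a 2)) Tᶜ}` (`T ∩ T' = ∅` and `|T| + |T'| = |E|`).
By A3d `P01 = n0 + n1`, `P02 = n0 + n2`, `P12 = n1 + n2` where `n_i` counts `Tᶜ` valid for the two
pairs containing `i`; so `#good ≡ n0 + n1 + n2`. On the other side a pair of complementary spanning
trees of the full graph splits the star as `{i} | {j, k}` (A3a (1), complement) so their number is
`2 (P01 + P02 + P12) = 4 (n0 + n1 + n2)` (A3a, A3b). -/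
def A4_stmt : Prop :=
  ∀ (E N : Type) [Fintype E] [Fintype N] [DecidableEq E] [DecidableEq N]
    (inc : E → N → ZMod 2) (a : Fin 3 → N), TwoEnds inc → Function.Injective a →
    Fintype.card E + 3 = 2 * Fintype.card N → 4 ≤ Fintype.card N →
    8 ∣ (((univ : Finset (E ⊕ Fin 3 → ZMod 2)).filter fun α => PsiLT (incF inc a) α = 1).card : ℤ)
      - (((univ : Finset (Finset (E ⊕ Fin 3))).filter fun T =>
        LT (incF inc a) T ∧ LT (incF inc a) Tᶜ).card : ℤ)

/-! ## Part E: simple graphs -/

/-- The incidence matrix of a simple graph. -/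
def incH {N : Type} [DecidableEq N] (H : SimpleGraph N) : H.edgeSet → N → ZMod 2 :=
  fun a n => if n ∈ (a : Sym2 N) then 1 else 0

/-- E1: `LT` is the usual notion of a spanning tree.
Sketch: (⇐) potentials: `φ` constant along the edges of a connected graph is constant
(`Walk` induction). Currents: let `y` be supported in `T`, `y (s(p,q)) ≠ 0`; deleting this edge
disconnects the tree (`SimpleGraph.isAcyclic_iff_forall_edge_isBridge`), let `U` be the indicator
of the component of `p`: `0 = ∑ n, U n * ∑ a, inc a n * y a = ∑ a, y a * (∑ n, inc a n * U n) =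
y (s(p,q))`. (⇒) connected: the indicator of a component is constant along `T`. Acyclic: the edge
set of a cycle gives a nonzero `y` (every vertex is incident with an even number, 0 or 2, of the
edges of a cycle; or: if `T` has an edge that is not a bridge ..., or count: connected and
`|T| = |N| - 1` by A3c implies tree, `SimpleGraph.isTree_iff_connected_and_card`). -/
def E1_stmt : Prop :=
  ∀ (N : Type) [Fintype N] [DecidableEq N] [Nonempty N] (H : SimpleGraph N)
    [Fintype H.edgeSet] (T : Finset H.edgeSet), SpTree H T ↔ LT (incH H) T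

open Classical in
/-- E2: transport of A4 to the graph `G - v`.
Sketch: `N = {v}ᶜ`, `H = G.induce {v}ᶜ`. Take a neighbour `w` of `v` in `G`; in `H` it has exactly
three neighbours `a 0, a 1, a 2`. `N ≃ Option N'`, `N' = {n // n ≠ w}`, `H.edgeSet ≃ E' ⊕ Fin 3`,
`E'` = the edges not incident with `w` (inr i ↦ s(w, a i)); under these equivalences `incH H`
becomes `incF inc' a`, and `LT`, `PsiLT` and the two counts are invariant (prove a general
transport lemma: for `f : E ≃ E2`, `h : N ≃ N2`, `inc2 (f e) (h n) = inc e n`). Numbers: `G` has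
`2n` edges (`n = |V|`, sum of degrees), `H` has `2n - 4`, `E'` has `2n - 7`, `N'` has `n - 2`. -/
def E2_stmt : Prop :=
  ∀ (V : Type) [Fintype V] [DecidableEq V] (G : SimpleGraph V) [DecidableRel G.Adj] (v : V),
    G.IsRegularOfDegree 4 → 6 ≤ Fintype.card V →
    8 ∣ (((univ : Finset ((G.induce ({v}ᶜ : Set V)).edgeSet → ZMod 2)).filter fun α =>
        PsiLT (incH (G.induce ({v}ᶜ : Set V))) α = 1).card : ℤ)
      - (((univ : Finset (Finset (G.induce ({v}ᶜ : Set V)).edgeSet)).filter fun T =>
        LT (incH (G.induce ({v}ᶜ : Set V))) T ∧ LT (incH (G.induce ({v}ᶜ : Set V))) Tᶜ).card : ℤ)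

/-- E3: the darts of a 4-regular simple graph.
Sketch: choose for every `u` a bijection `Fin 4 ≃ G.neighborFinset u`; `e (u, i) = (w, j)`, where
`w` is the `i`-th neighbour of `u` and `u` is the `j`-th neighbour of `w`. -/
def E3_stmt : Prop :=
  ∀ (V : Type) [Fintype V] [DecidableEq V] (G : SimpleGraph V) [DecidableRel G.Adj],
    G.IsRegularOfDegree 4 →
    ∃ e : V × Fin 4 → V × Fin 4, Act (dts (univ : Finset V)) e ∧
      (∀ u i, G.Adj u (e (u, i)).1) ∧ (∀ u w, G.Adj u w → ∃ i, (e (u, i)).1 = w) ∧
      (∀ u i j, (e (u, i)).1 = (e (u, j)).1 → i = j)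

open Classical in
/-- E4: tree pairs of `G - v` in terms of darts.
Sketch: `S = univ.erase v`; to `T : Finset H.edgeSet` corresponds the set `T'` of darts
`d ∈ DU S e` with `s(d.1, (e d).1) ∈ T`; this is a bijection from edge sets onto `e`-invariant
subsets of `DU S e`, compatible with complements, `|T'| = 2 |T|`. `LT (incH H) T` iff
`|T| + 1 = |N|` and every function constant along `T` is constant (one direction: A3c (with A3a's
`LT ↔ KTn (g1 n)`), the other: if `|T| = |N| - 1` and only constants are constant along `T`, the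
map `(N → ZMod 2) → (T → ZMod 2)` has kernel of order 2, so it is surjective, and then a
`y` supported on `T` with Kirchhoff's law, i.e. orthogonal to the image, is 0). Functions `N → ZMod 2`
versus `V → Bool` restricted to `S`. -/
def E4_stmt : Prop :=
  ∀ (V : Type) [Fintype V] [DecidableEq V] (G : SimpleGraph V) [DecidableRel G.Adj] (v : V)
    (e : V × Fin 4 → V × Fin 4), 2 ≤ Fintype.card V →
    Act (dts (univ : Finset V)) e → (∀ u i, G.Adj u (e (u, i)).1) →
    (∀ u w, G.Adj u w → ∃ i, (e (u, i)).1 = w) →
    (∀ u i j, (e (u, i)).1 = (e (u, j)).1 → i = j) →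
    ((univ : Finset (Finset (G.induce ({v}ᶜ : Set V)).edgeSet)).filter fun T =>
        LT (incH (G.induce ({v}ᶜ : Set V))) T ∧ LT (incH (G.induce ({v}ᶜ : Set V))) Tᶜ).card =
      TP (univ.erase v) e

end CT
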