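import Pool.Agent.helper56.CT.SpecG
import Pool.Agent.helper56.CT.SpecA
import Pool.Agent.helper56.CT.SpecB

/-!
# MP_45d809: the objects of the problem
-/

namespace CT
open Finset

section
variable {V : Type} [Fintype V] [DecidableEq V]

open Classical in
/-- The graph polynomial `Ψ_H(α) = ∑_T ∏_{a ∉ T} α_a`, evaluated at `α`; the sum is over the
spanning trees `T` of `H`. -/
noncomputable def graphPoly (H : SimpleGraph V) {F : Type} [CommRing F] (α : H.edgeSet → F) : F :=
  ∑ T ∈ (univ : Finset (Finset H.edgeSet)).filter (fun T => SpTree H T), ∏ a ∈ Tᶜ, α a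

/-- The number `[X_H]` of zeros of the graph polynomial over the finite field `F`. -/
noncomputable def numZeros (H : SimpleGraph V) (F : Type) [CommRing F] : ℕ :=
  Nat.card {α : H.edgeSet → F // graphPoly H α = 0}

/-- `c_2^{(q)}(H) ≡ r (mod q)`, `q = |F|`: the number of zeros is `q ^ 2 * k` with
`k ≡ r (mod q)`. -/
def C2Is (H : SimpleGraph V) (F : Type) [CommRing F] (r : ℤ) : Prop :=
  ∃ k : ℕ, numZeros H F = Nat.card F ^ 2 * k ∧ (k : ℤ) ≡ r [ZMOD (Nat.card F : ℤ)]

/-- The decompletion `G - v`. -/
abbrev decompletion (G : SimpleGraph V) (v : V) : SimpleGraph ({v}ᶜ : Set V) :=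
  G.induce ({v}ᶜ : Set V)

/-- Every vertex has exactly 4 neighbours. -/
def FourRegular (G : SimpleGraph V) : Prop := ∀ u, Nat.card {w // G.Adj u w} = 4

/-- Prime ancestors: (i) 4-regular, (ii) internally 6-connected, (iii) vertex connectivity (at
least, hence exactly) 4, (iv) no edge lies in exactly two triangles. -/
structure PrimeAncestor (G : SimpleGraph V) : Prop where
  five_le : 5 ≤ Fintype.card V
  regular : FourRegular G
  internal : ∀ S : Finset (Sym2 V), (S : Set (Sym2 V)) ⊆ G.edgeSet → S.card = 4 →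
    ¬ (G.deleteEdges (S : Set (Sym2 V))).Connected →
    ∃ v, ∀ a ∈ S, v ∈ a
  connectivity : ∀ X : Finset V, X.card ≤ 3 → (G.induce ((X : Set V)ᶜ)).Connected
  triangles : ∀ u w, G.Adj u w → Nat.card {z // G.Adj u z ∧ G.Adj w z} ≠ 2

open Classical in
/-- `c` is a 2-colouring such that twice the number of monochromatic edges inside `W` plus the
number of edges leaving `W` is at most 6 (the number of ordered pairs counted below is exactly
this sum). -/
def NearBipartite (G : SimpleGraph V) (W : Finset V) (c : V → Bool) : Prop :=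
  ((univ : Finset (V × V)).filter fun p =>
    G.Adj p.1 p.2 ∧ p.1 ∈ W ∧ (p.2 ∉ W ∨ c p.1 = c p.2)).card ≤ 6

/-- Some set of at least five vertices is nearly bipartite and nearly separated. -/
def HasNearBipartitePart (G : SimpleGraph V) : Prop :=
  ∃ (W : Finset V) (c : V → Bool), 5 ≤ W.card ∧ NearBipartite G W c

/-- Deleting at most three edges makes the graph bipartite. -/
def ThreeFromBipartite (G : SimpleGraph V) : Prop :=
  ∃ R : Finset (Sym2 V), R.card ≤ 3 ∧ (G.deleteEdges (R : Set (Sym2 V))).Colorable 2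

/-- There is a subgraph `K_{3,3}`. -/
def ContainsK33 (G : SimpleGraph V) : Prop :=
  ∃ a b : Fin 3 → V, Function.Injective a ∧ Function.Injective b ∧ ∀ i j, G.Adj (a i) (b j)

/-- Two vertices with the same neighbours. -/
def HasTwins (G : SimpleGraph V) : Prop :=
  ∃ u u' : V, u ≠ u' ∧ ∀ w, G.Adj u w ↔ G.Adj u' w

end
end CT
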